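import Pool.Agent.Lib.MP_dc5ea1_nt.Spec

/-!
MP_dc5ea1_nt: reduction to sums of three squares, normalised representations (helper3).
-/

set_option autoImplicit false

namespace Pool.Agent.Lib.MP_dc5ea1_nt

theorem sq_mod_eight (x : ℤ) : x ^ 2 % 8 = 0 ∨ x ^ 2 % 8 = 1 ∨ x ^ 2 % 8 = 4 := by
  have h : x % 8 = 0 ∨ x % 8 = 1 ∨ x % 8 = 2 ∨ x % 8 = 3 ∨ x % 8 = 4 ∨ x % 8 = 5 ∨ x % 8 = 6 ∨
      x % 8 = 7 := by omega
  rcases h with h | h | h | h | h | h | h | h <;> simp [pow_two, Int.mul_emod, h]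

theorem sq_odd_mod {x : ℤ} (h : x ^ 2 % 8 = 1) : x % 2 = 1 := by
  rcases Int.emod_two_eq_zero_or_one x with h1 | h1
  · exfalso
    obtain ⟨k, hk⟩ : (2 : ℤ) ∣ x := Int.dvd_of_emod_eq_zero h1
    have : x ^ 2 = 4 * k ^ 2 := by rw [hk]; ring
    omega
  · exact h1

theorem all_odd {x y z N : ℤ} (h : x ^ 2 + y ^ 2 + z ^ 2 = N) (hN : N % 8 = 3) :
    x % 2 = 1 ∧ y % 2 = 1 ∧ z % 2 = 1 := by
  have hx := sq_mod_eight x
  have hy := sq_mod_eight y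
  have hz := sq_mod_eight z
  refine ⟨sq_odd_mod ?_, sq_odd_mod ?_, sq_odd_mod ?_⟩ <;> omega

theorem sq_mod_five (x : ℤ) : (x % 5 = 0 ∧ x ^ 2 % 5 = 0) ∨ (x % 5 = 1 ∧ x ^ 2 % 5 = 1) ∨
    (x % 5 = 2 ∧ x ^ 2 % 5 = 4) ∨ (x % 5 = 3 ∧ x ^ 2 % 5 = 4) ∨ (x % 5 = 4 ∧ x ^ 2 % 5 = 1) := by
  have h : x % 5 = 0 ∨ x % 5 = 1 ∨ x % 5 = 2 ∨ x % 5 = 3 ∨ x % 5 = 4 := by omega
  rcases h with h | h | h | h | h <;> simp [pow_two, Int.mul_emod, h]

theorem sq_mod_three (x : ℤ) : (x % 3 = 0 ∧ x ^ 2 % 3 = 0) ∨ (x % 3 = 1 ∧ x ^ 2 % 3 = 1) ∨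
    (x % 3 = 2 ∧ x ^ 2 % 3 = 1) := by
  have h : x % 3 = 0 ∨ x % 3 = 1 ∨ x % 3 = 2 := by omega
  rcases h with h | h | h <;> simp [pow_two, Int.mul_emod, h]

/-- index of a generalized heptagonal number from an odd integer `≡ ±2 mod 5`. -/
theorem exists_hep {x : ℤ} (h2 : x % 2 = 1) (h5 : x % 5 = 2 ∨ x % 5 = 3) :
    ∃ r : ℤ, 40 * hep r + 9 = x ^ 2 := by
  have key : ∀ r : ℤ, 40 * hep r + 9 = (10 * r - 3) ^ 2 := by
    intro r
    have h : (2 : ℤ) ∣ r * (5 * r - 3) := by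
      rcases Int.even_or_odd r with h | h
      · exact (h.two_dvd).mul_right _
      · have : Even (5 * r - 3) := by
          obtain ⟨k, hk⟩ := h
          exact ⟨5 * k + 1, by rw [hk]; ring⟩
        exact (this.two_dvd).mul_left _
    have h' : 2 * hep r = r * (5 * r - 3) := Int.mul_ediv_cancel' h
    linear_combination 20 * h'
  rcases h5 with h5 | h5
  · refine ⟨(x + 3) / 10, ?_⟩
    rw [key]
    congr 1
    omega
  · refine ⟨(-x + 3) / 10, ?_⟩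
    rw [key, show 10 * ((-x + 3) / 10) - 3 = -x by omega]
    ring

theorem conv (n : ℕ) (h : ¬ Bad (40 * n + 27)) : IsSum n := by
  unfold Bad at h
  push Not at h
  obtain ⟨x, y, z, hN, hx, hy, hz⟩ := h
  obtain ⟨ox, oy, oz⟩ := all_odd hN (by omega)
  have hx5 := sq_mod_five x
  have hy5 := sq_mod_five y
  have hz5 := sq_mod_five z
  obtain ⟨a, ha⟩ := exists_hep ox (by omega)
  obtain ⟨b, hb⟩ := exists_hep oy (by omega)
  obtain ⟨c, hc⟩ := exists_hep oz (by omega)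
  exact ⟨a, b, c, by linarith⟩

/-- A normalised representation: `5 ∣ z`, `5 ∣ x - y`, and `5` does not divide `x`. -/
def Nm (N x y z : ℤ) : Prop := x ^ 2 + y ^ 2 + z ^ 2 = N ∧ z % 5 = 0 ∧ (x - y) % 5 = 0 ∧ x % 5 ≠ 0

theorem Bad.contra {N x y z : ℤ} (hB : Bad N) (h : x ^ 2 + y ^ 2 + z ^ 2 = N) (hx : x % 5 ≠ 0)
    (hy : y % 5 ≠ 0) (hz : z % 5 ≠ 0) : False := by
  rcases hB x y z h with h1 | h1 | h1 <;> omega

theorem nm_of_dvd {N x y z : ℤ} (h5 : N % 5 = 2) (h : x ^ 2 + y ^ 2 + z ^ 2 = N) (hz : z % 5 = 0) :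
    ∃ y' : ℤ, Nm N x y' z := by
  have hx5 := sq_mod_five x
  have hy5 := sq_mod_five y
  have hz5 := sq_mod_five z
  by_cases hxy : (x - y) % 5 = 0
  · exact ⟨y, h, hz, hxy, by omega⟩
  · refine ⟨-y, ?_, hz, by omega, by omega⟩
    rw [← h]; ring

theorem exists_nm {N : ℤ} (h3 : ThreeStmt) (hN : 0 < N) (h8 : N % 8 = 3) (h5 : N % 5 = 2)
    (hB : Bad N) : ∃ x y z : ℤ, Nm N x y z := by
  obtain ⟨x, y, z, h⟩ := h3 N hN h8
  rcases hB x y z h with h1 | h1 | h1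
  · obtain ⟨y', hy'⟩ := nm_of_dvd (x := y) (y := z) (z := x) h5 (by rw [← h]; ring) (by omega)
    exact ⟨_, _, _, hy'⟩
  · obtain ⟨y', hy'⟩ := nm_of_dvd (x := x) (y := z) (z := y) h5 (by rw [← h]; ring) (by omega)
    exact ⟨_, _, _, hy'⟩
  · obtain ⟨y', hy'⟩ := nm_of_dvd (x := x) (y := y) (z := z) h5 h (by omega)
    exact ⟨_, _, _, hy'⟩

/-- Rational rotations. -/
theorem rot {m x y z x1 y1 z1 N A B C : ℤ} (hm : m ≠ 0) (h : x ^ 2 + y ^ 2 + z ^ 2 = N)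
    (h1 : m * x1 = A) (h2 : m * y1 = B) (h3 : m * z1 = C)
    (hABC : A ^ 2 + B ^ 2 + C ^ 2 = m ^ 2 * (x ^ 2 + y ^ 2 + z ^ 2)) :
    x1 ^ 2 + y1 ^ 2 + z1 ^ 2 = N := by
  have h4 : m ^ 2 * (x1 ^ 2 + y1 ^ 2 + z1 ^ 2) = m ^ 2 * N := by
    calc m ^ 2 * (x1 ^ 2 + y1 ^ 2 + z1 ^ 2) = (m * x1) ^ 2 + (m * y1) ^ 2 + (m * z1) ^ 2 := by ring
      _ = m ^ 2 * N := by rw [h1, h2, h3, hABC, h]
  exact mul_left_cancel₀ (pow_ne_zero 2 hm) h4

/-- An integer divisible by all powers of `p ≥ 2` is `0`. -/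
theorem eq_zero_of_pow_dvd {p : ℕ} (hp : 2 ≤ p) {a : ℤ} (h : ∀ k : ℕ, (p : ℤ) ^ k ∣ a) : a = 0 := by
  by_contra ha
  have h1 := Int.le_of_dvd (abs_pos.2 ha) ((dvd_abs _ _).2 (h a.natAbs))
  have h2 : a.natAbs < p ^ a.natAbs := Nat.lt_pow_self hp
  have h3 : (a.natAbs : ℤ) < (p : ℤ) ^ a.natAbs := by exact_mod_cast h2
  rw [Int.natCast_natAbs] at h3
  linarith

theorem emod_iff (p : ℕ) (a : ℤ) : ((a : ZMod p) = 0) ↔ a % p = 0 := by
  rw [ZMod.intCast_zmod_eq_zero_iff_dvd]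
  exact ⟨Int.emod_eq_zero_of_dvd, Int.dvd_of_emod_eq_zero⟩

theorem mod5_eq {m a b c x y z w : ℤ} (hw : m * w = a * x + b * y + c * z) (hz : z % 5 = 0)
    (hxy : (x - y) % 5 = 0) : (5 : ℤ) ∣ m * w - (a + b) * x := by
  obtain ⟨p, hp⟩ := Int.dvd_of_emod_eq_zero hz
  obtain ⟨q, hq⟩ := Int.dvd_of_emod_eq_zero hxy
  exact ⟨c * p - b * q, by linear_combination hw + c * hp - b * hq⟩

/-- A coordinate of the image that is not divisible by `5`. -/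
theorem nz5 {m a b c x y z w : ℤ} (hw : m * w = a * x + b * y + c * z) (hab : (a + b) % 5 ≠ 0)
    (hz : z % 5 = 0) (hxy : (x - y) % 5 = 0) (hx : x % 5 ≠ 0) : w % 5 ≠ 0 := by
  intro h
  have h1 := mod5_eq hw hz hxy
  have h2 : (5 : ℤ) ∣ m * w := Dvd.dvd.mul_left (Int.dvd_of_emod_eq_zero h) m
  have h3 : (5 : ℤ) ∣ (a + b) * x := by
    have := dvd_sub h2 h1
    rwa [sub_sub_cancel] at this
  rcases (Int.prime_iff_natAbs_prime.2 (by norm_num : Nat.Prime (Int.natAbs 5))).dvd_or_dvd h3 with h4 | h4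
  · exact hab (Int.emod_eq_zero_of_dvd h4)
  · exact hx (Int.emod_eq_zero_of_dvd h4)

/-- A coordinate of the image that is divisible by `5`. -/
theorem z5 {m a b c x y z w : ℤ} (hw : m * w = a * x + b * y + c * z) (hm : m % 5 ≠ 0)
    (hab : (a + b) % 5 = 0) (hz : z % 5 = 0) (hxy : (x - y) % 5 = 0) : w % 5 = 0 := by
  have h1 := mod5_eq hw hz hxy
  have h2 : (5 : ℤ) ∣ (a + b) * x := Dvd.dvd.mul_right (Int.dvd_of_emod_eq_zero hab) x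
  have h3 : (5 : ℤ) ∣ m * w := by
    have := dvd_add h1 h2
    rwa [sub_add_cancel] at this
  rcases (Int.prime_iff_natAbs_prime.2 (by norm_num : Nat.Prime (Int.natAbs 5))).dvd_or_dvd h3 with h4 | h4
  · exact absurd (Int.emod_eq_zero_of_dvd h4) hm
  · exact Int.emod_eq_zero_of_dvd h4

/-- Normalisation of an image whose first two coordinates are `≡` mod `5`, last `≡ 0`. -/
theorem nm_mk {m a b c a' b' c' a'' b'' c'' x y z w w' w'' N : ℤ} (hm : m % 5 ≠ 0)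
    (hr : w ^ 2 + w' ^ 2 + w'' ^ 2 = N)
    (hw : m * w = a * x + b * y + c * z) (hw' : m * w' = a' * x + b' * y + c' * z)
    (hw'' : m * w'' = a'' * x + b'' * y + c'' * z)
    (h1 : (a + b) % 5 ≠ 0) (h2 : (a - a' + (b - b')) % 5 = 0) (h3 : (a'' + b'') % 5 = 0)
    (hz : z % 5 = 0) (hxy : (x - y) % 5 = 0) (hx : x % 5 ≠ 0) : Nm N w w' w'' :=
  ⟨hr, z5 hw'' hm h3 hz hxy,
    z5 (m := m) (a := a - a') (b := b - b') (c := c - c') (x := x) (y := y) (z := z) (w := w - w')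
      (by linear_combination hw - hw') hm h2 hz hxy, nz5 hw h1 hz hxy hx⟩

/-- Nonvanishing mod `3` of an image, for `v ≡ x (1,-1,-1)`. -/
theorem nz3 {m a b c x y z w : ℤ} (hw : m * w = a * x + b * y + c * z) (h : (a - b - c) % 3 ≠ 0)
    (hxy : (x + y) % 3 = 0) (hxz : (x + z) % 3 = 0) (hx : x % 3 ≠ 0) : w % 3 ≠ 0 := by
  intro h0
  obtain ⟨p, hp⟩ := Int.dvd_of_emod_eq_zero hxy
  obtain ⟨q, hq⟩ := Int.dvd_of_emod_eq_zero hxz
  obtain ⟨r, hr⟩ := Int.dvd_of_emod_eq_zero h0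
  have h3 : (3 : ℤ) ∣ (a - b - c) * x :=
    ⟨m * r - b * p - c * q, by linear_combination (-1 : ℤ) * hw - b * hp - c * hq + m * hr⟩
  rcases (Int.prime_iff_natAbs_prime.2 (by norm_num : Nat.Prime (Int.natAbs 3))).dvd_or_dvd h3 with h4 | h4
  · exact h (Int.emod_eq_zero_of_dvd h4)
  · exact hx (Int.emod_eq_zero_of_dvd h4)

/-- The same for `v ≡ x (1,-1,±1)`. -/
theorem nz3' {m a b c x y z w : ℤ} (hw : m * w = a * x + b * y + c * z) (h : (a - b - c) % 3 ≠ 0)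
    (h' : (a - b + c) % 3 ≠ 0) (hxy : (x + y) % 3 = 0) (hx : x % 3 ≠ 0) (hz : z % 3 ≠ 0) :
    w % 3 ≠ 0 := by
  have hxz : (x + z) % 3 = 0 ∨ (x + -z) % 3 = 0 := by
    have hx' : x % 3 = 1 ∨ x % 3 = 2 := by omega
    have hz' : z % 3 = 1 ∨ z % 3 = 2 := by omega
    rcases hx' with hx' | hx' <;> rcases hz' with hz' | hz' <;> omega
  rcases hxz with h1 | h1
  · exact nz3 hw h hxy h1 hx
  · refine nz3 (m := m) (a := a) (b := b) (c := -c) (z := -z) (w := w) (y := y) ?_ ?_ hxy h1 hx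
    · linear_combination hw
    · simpa using h'

end Pool.Agent.Lib.MP_dc5ea1_nt
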