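import Pool.Agent.Lib.MP_dc5ea1_nt.SplitThree

/-!
MP_dc5ea1_nt: the case `3 ∥ N`, `-N` a nonzero square modulo `7` (7-neighbours and descent) (helper3).
-/

set_option autoImplicit false

namespace Pool.Agent.Lib.MP_dc5ea1_nt

namespace CaseD

theorem ex0 {N x y z : ℤ} (hB : Bad N) (h : Nm N x y z) : ¬ (x - 3 * y - 2 * z) % 7 = 0 := by
  intro h0
  obtain ⟨hN, hz, hxy, hx⟩ := h
  obtain ⟨c, hc⟩ := Int.dvd_of_emod_eq_zero h0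
  obtain ⟨x1, ex1⟩ : ∃ t : ℤ, 7 * t = 3 * x + (-2) * y + (-6) * z :=
    ⟨3 * c + (0 * x + 1 * y + 0 * z), by linear_combination (-(3) : ℤ) * hc⟩
  obtain ⟨y1, ey1⟩ : ∃ t : ℤ, 7 * t = 6 * x + 3 * y + 2 * z :=
    ⟨6 * c + (0 * x + 3 * y + 2 * z), by linear_combination (-(6) : ℤ) * hc⟩
  obtain ⟨z1, ez1⟩ : ∃ t : ℤ, 7 * t = 2 * x + (-6) * y + 3 * z :=
    ⟨2 * c + (0 * x + 0 * y + 1 * z), by linear_combination (-(2) : ℤ) * hc⟩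
  have hr := rot (m := 7) (by norm_num) hN ex1 ey1 ez1 (by ring)
  exact hB.contra hr (nz5 ex1 (by norm_num) hz hxy hx) (nz5 ey1 (by norm_num) hz hxy hx)
    (nz5 ez1 (by norm_num) hz hxy hx)

theorem ex1 {N x y z : ℤ} (hB : Bad N) (h : Nm N x y z) : ¬ (x - 3 * y + 2 * z) % 7 = 0 := by
  intro h0
  obtain ⟨hN, hz, hxy, hx⟩ := h
  obtain ⟨c, hc⟩ := Int.dvd_of_emod_eq_zero h0
  obtain ⟨x1, ex1⟩ : ∃ t : ℤ, 7 * t = 3 * x + (-2) * y + 6 * z :=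
    ⟨3 * c + (0 * x + 1 * y + 0 * z), by linear_combination (-(3) : ℤ) * hc⟩
  obtain ⟨y1, ey1⟩ : ∃ t : ℤ, 7 * t = 6 * x + 3 * y + (-2) * z :=
    ⟨6 * c + (0 * x + 3 * y + (-2) * z), by linear_combination (-(6) : ℤ) * hc⟩
  obtain ⟨z1, ez1⟩ : ∃ t : ℤ, 7 * t = (-2) * x + 6 * y + 3 * z :=
    ⟨-2 * c + (0 * x + 0 * y + 1 * z), by linear_combination (-(-2) : ℤ) * hc⟩
  have hr := rot (m := 7) (by norm_num) hN ex1 ey1 ez1 (by ring)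
  exact hB.contra hr (nz5 ex1 (by norm_num) hz hxy hx) (nz5 ey1 (by norm_num) hz hxy hx)
    (nz5 ez1 (by norm_num) hz hxy hx)

theorem ex2 {N x y z : ℤ} (h3 : N % 3 = 0) (h9 : N % 9 ≠ 0) (hB : Bad N) (h : Nm N x y z)
    (hs : (x + z) % 3 = 0) : ¬ (x - 2 * y - 3 * z) % 7 = 0 := by
  intro h0
  have hm := mod3 h3 h9 hB h
  obtain ⟨hN, hz, hxy, hx⟩ := h
  obtain ⟨c, hc⟩ := Int.dvd_of_emod_eq_zero h0
  obtain ⟨x1, ex1⟩ : ∃ t : ℤ, 7 * t = 3 * x + (-6) * y + (-2) * z :=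
    ⟨3 * c + (0 * x + 0 * y + 1 * z), by linear_combination (-(3) : ℤ) * hc⟩
  obtain ⟨y1, ey1⟩ : ∃ t : ℤ, 7 * t = 2 * x + 3 * y + (-6) * z :=
    ⟨2 * c + (0 * x + 1 * y + 0 * z), by linear_combination (-(2) : ℤ) * hc⟩
  obtain ⟨z1, ez1⟩ : ∃ t : ℤ, 7 * t = 6 * x + 2 * y + 3 * z :=
    ⟨6 * c + (0 * x + 2 * y + 3 * z), by linear_combination (-(6) : ℤ) * hc⟩
  have hr := rot (m := 7) (by norm_num) hN ex1 ey1 ez1 (by ring)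
  have eb : 7 * (-z1) = (-6) * x + (-2) * y + (-3) * z := by linear_combination -ez1
  have hr2 : x1 ^ 2 + (-z1) ^ 2 + y1 ^ 2 = N := by rw [← hr]; ring
  have hn := nm_mk (by norm_num) hr2 ex1 eb ey1 (by norm_num) (by norm_num) (by norm_num) hz hxy hx
  have h4 := (mod3 h3 h9 hB hn).2.2.2
  have e4 : 7 * (x1 + (-z1)) = (-3) * x + (-8) * y + (-5) * z := by linear_combination ex1 + eb
  exact nz3 e4 (by norm_num) hm.2.2.2 hs hm.1 h4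

theorem ex3 {N x y z : ℤ} (hB : Bad N) (h : Nm N x y z) : ¬ (x + 2 * y - 3 * z) % 7 = 0 := by
  intro h0
  obtain ⟨hN, hz, hxy, hx⟩ := h
  obtain ⟨c, hc⟩ := Int.dvd_of_emod_eq_zero h0
  obtain ⟨x1, ex1⟩ : ∃ t : ℤ, 7 * t = 3 * x + 6 * y + (-2) * z :=
    ⟨3 * c + (0 * x + 0 * y + 1 * z), by linear_combination (-(3) : ℤ) * hc⟩
  obtain ⟨y1, ey1⟩ : ∃ t : ℤ, 7 * t = (-2) * x + 3 * y + 6 * z :=
    ⟨-2 * c + (0 * x + 1 * y + 0 * z), by linear_combination (-(-2) : ℤ) * hc⟩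
  obtain ⟨z1, ez1⟩ : ∃ t : ℤ, 7 * t = 6 * x + (-2) * y + 3 * z :=
    ⟨6 * c + (0 * x + (-2) * y + 3 * z), by linear_combination (-(6) : ℤ) * hc⟩
  have hr := rot (m := 7) (by norm_num) hN ex1 ey1 ez1 (by ring)
  exact hB.contra hr (nz5 ex1 (by norm_num) hz hxy hx) (nz5 ey1 (by norm_num) hz hxy hx)
    (nz5 ez1 (by norm_num) hz hxy hx)

theorem ex4 {N x y z : ℤ} (hB : Bad N) (h : Nm N x y z) : ¬ (x + 2 * y + 3 * z) % 7 = 0 := by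
  intro h0
  obtain ⟨hN, hz, hxy, hx⟩ := h
  obtain ⟨c, hc⟩ := Int.dvd_of_emod_eq_zero h0
  obtain ⟨x1, ex1⟩ : ∃ t : ℤ, 7 * t = 3 * x + 6 * y + 2 * z :=
    ⟨3 * c + (0 * x + 0 * y + (-1) * z), by linear_combination (-(3) : ℤ) * hc⟩
  obtain ⟨y1, ey1⟩ : ∃ t : ℤ, 7 * t = (-2) * x + 3 * y + (-6) * z :=
    ⟨-2 * c + (0 * x + 1 * y + 0 * z), by linear_combination (-(-2) : ℤ) * hc⟩
  obtain ⟨z1, ez1⟩ : ∃ t : ℤ, 7 * t = (-6) * x + 2 * y + 3 * z :=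
    ⟨-6 * c + (0 * x + 2 * y + 3 * z), by linear_combination (-(-6) : ℤ) * hc⟩
  have hr := rot (m := 7) (by norm_num) hN ex1 ey1 ez1 (by ring)
  exact hB.contra hr (nz5 ex1 (by norm_num) hz hxy hx) (nz5 ey1 (by norm_num) hz hxy hx)
    (nz5 ez1 (by norm_num) hz hxy hx)

theorem ex5 {N x y z : ℤ} (h3 : N % 3 = 0) (h9 : N % 9 ≠ 0) (hB : Bad N) (h : Nm N x y z)
    (hs : (x + z) % 3 = 0) : ¬ (x + 3 * y + 2 * z) % 7 = 0 := by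
  intro h0
  have hm := mod3 h3 h9 hB h
  obtain ⟨hN, hz, hxy, hx⟩ := h
  obtain ⟨c, hc⟩ := Int.dvd_of_emod_eq_zero h0
  obtain ⟨x1, ex1⟩ : ∃ t : ℤ, 7 * t = 3 * x + 2 * y + 6 * z :=
    ⟨3 * c + (0 * x + (-1) * y + 0 * z), by linear_combination (-(3) : ℤ) * hc⟩
  obtain ⟨y1, ey1⟩ : ∃ t : ℤ, 7 * t = (-6) * x + 3 * y + 2 * z :=
    ⟨-6 * c + (0 * x + 3 * y + 2 * z), by linear_combination (-(-6) : ℤ) * hc⟩
  obtain ⟨z1, ez1⟩ : ∃ t : ℤ, 7 * t = (-2) * x + (-6) * y + 3 * z :=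
    ⟨-2 * c + (0 * x + 0 * y + 1 * z), by linear_combination (-(-2) : ℤ) * hc⟩
  have hr := rot (m := 7) (by norm_num) hN ex1 ey1 ez1 (by ring)
  have eb := ez1
  have hr2 : y1 ^ 2 + (z1) ^ 2 + x1 ^ 2 = N := by rw [← hr]; ring
  have hn := nm_mk (by norm_num) hr2 ey1 eb ex1 (by norm_num) (by norm_num) (by norm_num) hz hxy hx
  have h4 := (mod3 h3 h9 hB hn).2.2.2
  have e4 : 7 * (y1 + z1) = (-8) * x + (-3) * y + 5 * z := by linear_combination ey1 + eb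
  exact nz3 e4 (by norm_num) hm.2.2.2 hs hm.1 h4

theorem fin7 : ∀ x y z : ZMod 7, (x ^ 2 + y ^ 2 + z ^ 2 = 3 ∨ x ^ 2 + y ^ 2 + z ^ 2 = 5 ∨
    x ^ 2 + y ^ 2 + z ^ 2 = 6) → x - 3 * y - 2 * z = 0 ∨ x - 3 * y + 2 * z = 0 ∨ x - 2 * y - 3 * z = 0 ∨ x + 2 * y - 3 * z = 0 ∨ x + 2 * y + 3 * z = 0 ∨ x + 3 * y + 2 * z = 0 ∨
    (x + y = 0 ∧ x + z = 0) := by
  decide +kernel

theorem base {N x y z : ℤ} (h3 : N % 3 = 0) (h9 : N % 9 ≠ 0) (h7 : N % 7 = 3 ∨ N % 7 = 5 ∨ N % 7 = 6)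
    (hB : Bad N) (h : Nm N x y z) (hs : (x + z) % 3 = 0) : (x + y) % 7 = 0 ∧ (x + z) % 7 = 0 := by
  have hN := h.1
  have key := fin7 (x : ZMod 7) (y : ZMod 7) (z : ZMod 7) (by
    have hc : (x : ZMod 7) ^ 2 + (y : ZMod 7) ^ 2 + (z : ZMod 7) ^ 2 = (N : ZMod 7) := by
      rw [← hN]; push_cast; ring
    rw [hc]
    rcases h7 with h7 | h7 | h7
    · left
      have := (emod_iff 7 (N - 3)).2 (by push_cast; omega)
      push_cast at this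
      exact sub_eq_zero.1 this
    · right; left
      have := (emod_iff 7 (N - 5)).2 (by push_cast; omega)
      push_cast at this
      exact sub_eq_zero.1 this
    · right; right
      have := (emod_iff 7 (N - 6)).2 (by push_cast; omega)
      push_cast at this
      exact sub_eq_zero.1 this)
  rcases key with k | k | k | k | k | k | ⟨k1, k2⟩
  · exact absurd ((emod_iff 7 (x - 3 * y - 2 * z)).1 (by push_cast; exact k)) (ex0 hB h)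
  · exact absurd ((emod_iff 7 (x - 3 * y + 2 * z)).1 (by push_cast; exact k)) (ex1 hB h)
  · exact absurd ((emod_iff 7 (x - 2 * y - 3 * z)).1 (by push_cast; exact k)) (ex2 h3 h9 hB h hs)
  · exact absurd ((emod_iff 7 (x + 2 * y - 3 * z)).1 (by push_cast; exact k)) (ex3 hB h)
  · exact absurd ((emod_iff 7 (x + 2 * y + 3 * z)).1 (by push_cast; exact k)) (ex4 hB h)
  · exact absurd ((emod_iff 7 (x + 3 * y + 2 * z)).1 (by push_cast; exact k)) (ex5 h3 h9 hB h hs)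
  · exact ⟨(emod_iff 7 (x + y)).1 (by push_cast; exact k1),
      (emod_iff 7 (x + z)).1 (by push_cast; exact k2)⟩

theorem step {N x y z : ℤ} (h3 : N % 3 = 0) (h9 : N % 9 ≠ 0) (h7 : N % 7 = 3 ∨ N % 7 = 5 ∨ N % 7 = 6)
    (hB : Bad N) (h : Nm N x y z) (hs : (x + z) % 3 = 0) :
    ∃ X Y Z X' Y' Z' : ℤ, (Nm N X Y Z ∧ (X + Z) % 3 = 0) ∧ (Nm N X' Y' Z' ∧ (X' + Z') % 3 = 0) ∧
      7 * (X + Y) = -(3 * (x + y) + 5 * (x + z)) ∧ 7 * (X + Z) = 5 * (x + y) - 8 * (x + z) ∧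
      7 * (X' + Y') = -8 * (x + y) + 5 * (x + z) ∧ 7 * (X' + Z') = -3 * (x + y) + 8 * (x + z) := by
  obtain ⟨b1, b2⟩ := base h3 h9 h7 hB h hs
  have hm := (mod3 h3 h9 hB h).2.2.2
  obtain ⟨hN, hz, hxy, hx⟩ := h
  have hc' : (x + 3 * y - 2 * z) % 7 = 0 := by omega
  have hd' : (x - 2 * y + 3 * z) % 7 = 0 := by omega
  obtain ⟨c, hc⟩ := Int.dvd_of_emod_eq_zero hc'
  obtain ⟨x1, ex1⟩ : ∃ t : ℤ, 7 * t = 3 * x + 2 * y + (-6) * z :=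
    ⟨3 * c + (0 * x + (-1) * y + 0 * z), by linear_combination (-(3) : ℤ) * hc⟩
  obtain ⟨y1, ey1⟩ : ∃ t : ℤ, 7 * t = (-6) * x + 3 * y + (-2) * z :=
    ⟨-6 * c + (0 * x + 3 * y + (-2) * z), by linear_combination (-(-6) : ℤ) * hc⟩
  obtain ⟨z1, ez1⟩ : ∃ t : ℤ, 7 * t = 2 * x + 6 * y + 3 * z :=
    ⟨2 * c + (0 * x + 0 * y + 1 * z), by linear_combination (-(2) : ℤ) * hc⟩
  have hr1 := rot (m := 7) (by norm_num) hN ex1 ey1 ez1 (by ring)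
  obtain ⟨d, hd⟩ := Int.dvd_of_emod_eq_zero hd'
  obtain ⟨x2, ex2⟩ : ∃ t : ℤ, 7 * t = 3 * x + (-6) * y + 2 * z :=
    ⟨3 * d + (0 * x + 0 * y + (-1) * z), by linear_combination (-(3) : ℤ) * hd⟩
  obtain ⟨y2, ey2⟩ : ∃ t : ℤ, 7 * t = 2 * x + 3 * y + 6 * z :=
    ⟨2 * d + (0 * x + 1 * y + 0 * z), by linear_combination (-(2) : ℤ) * hd⟩
  obtain ⟨z2, ez2⟩ : ∃ t : ℤ, 7 * t = (-6) * x + (-2) * y + 3 * z :=
    ⟨-6 * d + (0 * x + (-2) * y + 3 * z), by linear_combination (-(-6) : ℤ) * hd⟩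
  have hr2 := rot (m := 7) (by norm_num) hN ex2 ey2 ez2 (by ring)
  have eb1 : 7 * (-z1) = (-2) * x + (-6) * y + (-3) * z := by linear_combination -ez1
  have hr1' : y1 ^ 2 + (-z1) ^ 2 + x1 ^ 2 = N := by rw [← hr1]; ring
  have hr2' : x2 ^ 2 + z2 ^ 2 + y2 ^ 2 = N := by rw [← hr2]; ring
  refine ⟨y1, -z1, x1, x2, z2, y2,
    ⟨nm_mk (by norm_num) hr1' ey1 eb1 ex1 (by norm_num) (by norm_num) (by norm_num) hz hxy hx, ?_⟩,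
    ⟨nm_mk (by norm_num) hr2' ex2 ez2 ey2 (by norm_num) (by norm_num) (by norm_num) hz hxy hx, ?_⟩,
    by linarith, by linarith, by linarith, by linarith⟩
  · clear hr1 hr2 hr1' hr2' hN hc hd hc' hd' b1 b2 hB ez1 ex2 ey2 ez2 eb1 hz hxy hx h7
    omega
  · clear hr1 hr2 hr1' hr2' hN hc hd hc' hd' b1 b2 hB ex1 ey1 ez1 ez2 eb1 hz hxy hx h7
    omega

theorem pow7 {N : ℤ} (h3 : N % 3 = 0) (h9 : N % 9 ≠ 0) (h7 : N % 7 = 3 ∨ N % 7 = 5 ∨ N % 7 = 6)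
    (hB : Bad N) (k : ℕ) : ∀ x y z : ℤ, Nm N x y z → (x + z) % 3 = 0 →
      (7 : ℤ) ^ k ∣ x + y ∧ (7 : ℤ) ^ k ∣ x + z := by
  induction k with
  | zero => intro x y z _ _; simp
  | succ k ih =>
    intro x y z h hs
    obtain ⟨X, Y, Z, X', Y', Z', ⟨hn1, hs1⟩, ⟨hn2, hs2⟩, e1, e2, e3, e4⟩ := step h3 h9 h7 hB h hs
    obtain ⟨⟨a1, ha1⟩, ⟨b1, hb1⟩⟩ := ih _ _ _ hn1 hs1
    obtain ⟨⟨a2, ha2⟩, ⟨b2, hb2⟩⟩ := ih _ _ _ hn2 hs2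
    have A1 : (7 : ℤ) ^ (k + 1) * a1 = -(3 * (x + y) + 5 * (x + z)) := by rw [← e1, ha1]; ring
    have B1 : (7 : ℤ) ^ (k + 1) * b1 = 5 * (x + y) - 8 * (x + z) := by rw [← e2, hb1]; ring
    have A2 : (7 : ℤ) ^ (k + 1) * a2 = -8 * (x + y) + 5 * (x + z) := by rw [← e3, ha2]; ring
    have B2 : (7 : ℤ) ^ (k + 1) * b2 = -3 * (x + y) + 8 * (x + z) := by rw [← e4, hb2]; ring
    have hp : x + y = (7 : ℤ) ^ (k + 1) * (-a1 - a2 - 5 * (b1 + b2)) := by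
      linear_combination A1 + A2 + 5 * B1 + 5 * B2
    have h8 : 8 * (x + z) = (7 : ℤ) ^ (k + 1) * (b2 + 3 * (-a1 - a2 - 5 * (b1 + b2))) := by
      linear_combination 3 * hp - B2
    have h5 : 5 * (x + z) = (7 : ℤ) ^ (k + 1) * (a2 + 8 * (-a1 - a2 - 5 * (b1 + b2))) := by
      linear_combination 8 * hp - A2
    exact ⟨⟨_, hp⟩, ⟨2 * (b2 + 3 * (-a1 - a2 - 5 * (b1 + b2))) -
      3 * (a2 + 8 * (-a1 - a2 - 5 * (b1 + b2))), by linear_combination 2 * h8 - 3 * h5⟩⟩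

end CaseD

/-- The case `3 ∥ N`, `N mod 7 ∈ {3, 5, 6}`. -/
theorem caseD (h : ThreeStmt) {N : ℤ} (hN : 0 < N) (h8 : N % 8 = 3) (h5 : N % 5 = 2)
    (h3 : N % 3 = 0) (h9 : N % 9 ≠ 0) (h7 : N % 7 = 3 ∨ N % 7 = 5 ∨ N % 7 = 6) : ¬ Bad N := by
  intro hB
  obtain ⟨x, y, z, hn⟩ := exists_nm h hN h8 h5 hB
  have key : ∀ z' : ℤ, Nm N x y z' → (x + z') % 3 = 0 → False := by
    intro z' hn' hs
    have h1 : x + y = 0 := eq_zero_of_pow_dvd (p := 7) (by norm_num)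
      fun k => by exact_mod_cast (CaseD.pow7 h3 h9 h7 hB k x y z' hn' hs).1
    obtain ⟨-, h4, h6, h10⟩ := hn'
    omega
  obtain ⟨m1, m2, m3, m4⟩ := mod3 h3 h9 hB hn
  have hxz : (x + z) % 3 = 0 ∨ (x + -z) % 3 = 0 := by
    have hx' : x % 3 = 1 ∨ x % 3 = 2 := by omega
    have hz' : z % 3 = 1 ∨ z % 3 = 2 := by omega
    rcases hx' with hx' | hx' <;> rcases hz' with hz' | hz' <;> omega
  rcases hxz with hs | hs
  · exact key z hn hs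
  · exact key (-z) hn.neg_z hs

end Pool.Agent.Lib.MP_dc5ea1_nt
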