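import Pool.Agent.Lib.MP_dc5ea1_nt.SplitThree

/-!
MP_dc5ea1_nt: the case `3 ∥ N`, `-N` a nonzero square modulo `11` (11-neighbours and descent) (helper3).
-/

set_option autoImplicit false

namespace Pool.Agent.Lib.MP_dc5ea1_nt

/-- `-N` is a nonzero square modulo `11`. -/
def Sp11 (N : ℤ) : Prop := N % 11 = 2 ∨ N % 11 = 6 ∨ N % 11 = 7 ∨ N % 11 = 8 ∨ N % 11 = 10

namespace CaseE

theorem ex0 {N x y z : ℤ} (h3 : N % 3 = 0) (h9 : N % 9 ≠ 0) (hB : Bad N) (h : Nm N x y z) : ¬ (x - 4 * y - 4 * z) % 11 = 0 := by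
  intro h0
  have hm := mod3 h3 h9 hB h
  obtain ⟨hN, hz, hxy, hx⟩ := h
  obtain ⟨c, hc⟩ := Int.dvd_of_emod_eq_zero h0
  obtain ⟨x1, ex1⟩ : ∃ t : ℤ, 11 * t = 7 * x + (-6) * y + (-6) * z :=
    ⟨7 * c + (0 * x + 2 * y + 2 * z), by linear_combination (-(7) : ℤ) * hc⟩
  obtain ⟨y1, ey1⟩ : ∃ t : ℤ, 11 * t = 6 * x + 9 * y + (-2) * z :=
    ⟨6 * c + (0 * x + 3 * y + 2 * z), by linear_combination (-(6) : ℤ) * hc⟩
  obtain ⟨z1, ez1⟩ : ∃ t : ℤ, 11 * t = 6 * x + (-2) * y + 9 * z :=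
    ⟨6 * c + (0 * x + 2 * y + 3 * z), by linear_combination (-(6) : ℤ) * hc⟩
  have hr := rot (m := 11) (by norm_num) hN ex1 ey1 ez1 (by ring)
  have eb : 11 * (-z1) = (-6) * x + 2 * y + (-9) * z := by linear_combination -ez1
  have hr2 : x1 ^ 2 + (-z1) ^ 2 + y1 ^ 2 = N := by rw [← hr]; ring
  have hn := nm_mk (by norm_num) hr2 ex1 eb ey1 (by norm_num) (by norm_num) (by norm_num) hz hxy hx
  have h4 := (mod3 h3 h9 hB hn).2.2.2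
  have e4 : 11 * (x1 + (-z1)) = 1 * x + (-4) * y + (-15) * z := by linear_combination ex1 + eb
  exact nz3' e4 (by norm_num) (by norm_num) hm.2.2.2 hm.1 hm.2.2.1 h4

theorem ex1 {N x y z : ℤ} (h3 : N % 3 = 0) (h9 : N % 9 ≠ 0) (hB : Bad N) (h : Nm N x y z) : ¬ (x - 4 * y + 4 * z) % 11 = 0 := by
  intro h0
  have hm := mod3 h3 h9 hB h
  obtain ⟨hN, hz, hxy, hx⟩ := h
  obtain ⟨c, hc⟩ := Int.dvd_of_emod_eq_zero h0
  obtain ⟨x1, ex1⟩ : ∃ t : ℤ, 11 * t = 7 * x + (-6) * y + 6 * z :=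
    ⟨7 * c + (0 * x + 2 * y + (-2) * z), by linear_combination (-(7) : ℤ) * hc⟩
  obtain ⟨y1, ey1⟩ : ∃ t : ℤ, 11 * t = 6 * x + 9 * y + 2 * z :=
    ⟨6 * c + (0 * x + 3 * y + (-2) * z), by linear_combination (-(6) : ℤ) * hc⟩
  obtain ⟨z1, ez1⟩ : ∃ t : ℤ, 11 * t = (-6) * x + 2 * y + 9 * z :=
    ⟨-6 * c + (0 * x + (-2) * y + 3 * z), by linear_combination (-(-6) : ℤ) * hc⟩
  have hr := rot (m := 11) (by norm_num) hN ex1 ey1 ez1 (by ring)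
  have eb := ez1
  have hr2 : x1 ^ 2 + (z1) ^ 2 + y1 ^ 2 = N := by rw [← hr]; ring
  have hn := nm_mk (by norm_num) hr2 ex1 eb ey1 (by norm_num) (by norm_num) (by norm_num) hz hxy hx
  have h4 := (mod3 h3 h9 hB hn).2.2.2
  have e4 : 11 * (x1 + z1) = 1 * x + (-4) * y + 15 * z := by linear_combination ex1 + eb
  exact nz3' e4 (by norm_num) (by norm_num) hm.2.2.2 hm.1 hm.2.2.1 h4

theorem ex2 {N x y z : ℤ} (h3 : N % 3 = 0) (h9 : N % 9 ≠ 0) (hB : Bad N) (h : Nm N x y z) : ¬ (x - 3 * y - z) % 11 = 0 := by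
  intro h0
  have hm := mod3 h3 h9 hB h
  obtain ⟨hN, hz, hxy, hx⟩ := h
  obtain ⟨c, hc⟩ := Int.dvd_of_emod_eq_zero h0
  obtain ⟨x1, ex1⟩ : ∃ t : ℤ, 11 * t = 9 * x + 6 * y + 2 * z :=
    ⟨9 * c + (0 * x + 3 * y + 1 * z), by linear_combination (-(9) : ℤ) * hc⟩
  obtain ⟨y1, ey1⟩ : ∃ t : ℤ, 11 * t = (-6) * x + 7 * y + 6 * z :=
    ⟨-6 * c + (0 * x + (-1) * y + 0 * z), by linear_combination (-(-6) : ℤ) * hc⟩
  obtain ⟨z1, ez1⟩ : ∃ t : ℤ, 11 * t = 2 * x + (-6) * y + 9 * z :=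
    ⟨2 * c + (0 * x + 0 * y + 1 * z), by linear_combination (-(2) : ℤ) * hc⟩
  have hr := rot (m := 11) (by norm_num) hN ex1 ey1 ez1 (by ring)
  have eb := ez1
  have hr2 : y1 ^ 2 + (z1) ^ 2 + x1 ^ 2 = N := by rw [← hr]; ring
  have hn := nm_mk (by norm_num) hr2 ey1 eb ex1 (by norm_num) (by norm_num) (by norm_num) hz hxy hx
  have h4 := (mod3 h3 h9 hB hn).2.2.2
  have e4 : 11 * (y1 + z1) = (-4) * x + 1 * y + 15 * z := by linear_combination ey1 + eb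
  exact nz3' e4 (by norm_num) (by norm_num) hm.2.2.2 hm.1 hm.2.2.1 h4

theorem ex3 {N x y z : ℤ} (h3 : N % 3 = 0) (h9 : N % 9 ≠ 0) (hB : Bad N) (h : Nm N x y z) : ¬ (x - 3 * y + z) % 11 = 0 := by
  intro h0
  have hm := mod3 h3 h9 hB h
  obtain ⟨hN, hz, hxy, hx⟩ := h
  obtain ⟨c, hc⟩ := Int.dvd_of_emod_eq_zero h0
  obtain ⟨x1, ex1⟩ : ∃ t : ℤ, 11 * t = 9 * x + 6 * y + (-2) * z :=
    ⟨9 * c + (0 * x + 3 * y + (-1) * z), by linear_combination (-(9) : ℤ) * hc⟩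
  obtain ⟨y1, ey1⟩ : ∃ t : ℤ, 11 * t = (-6) * x + 7 * y + (-6) * z :=
    ⟨-6 * c + (0 * x + (-1) * y + 0 * z), by linear_combination (-(-6) : ℤ) * hc⟩
  obtain ⟨z1, ez1⟩ : ∃ t : ℤ, 11 * t = (-2) * x + 6 * y + 9 * z :=
    ⟨-2 * c + (0 * x + 0 * y + 1 * z), by linear_combination (-(-2) : ℤ) * hc⟩
  have hr := rot (m := 11) (by norm_num) hN ex1 ey1 ez1 (by ring)
  have eb : 11 * (-z1) = 2 * x + (-6) * y + (-9) * z := by linear_combination -ez1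
  have hr2 : y1 ^ 2 + (-z1) ^ 2 + x1 ^ 2 = N := by rw [← hr]; ring
  have hn := nm_mk (by norm_num) hr2 ey1 eb ex1 (by norm_num) (by norm_num) (by norm_num) hz hxy hx
  have h4 := (mod3 h3 h9 hB hn).2.2.2
  have e4 : 11 * (y1 + (-z1)) = (-4) * x + 1 * y + (-15) * z := by linear_combination ey1 + eb
  exact nz3' e4 (by norm_num) (by norm_num) hm.2.2.2 hm.1 hm.2.2.1 h4

theorem ex4 {N x y z : ℤ} (hB : Bad N) (h : Nm N x y z) : ¬ (x + y - 3 * z) % 11 = 0 := by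
  intro h0
  obtain ⟨hN, hz, hxy, hx⟩ := h
  obtain ⟨c, hc⟩ := Int.dvd_of_emod_eq_zero h0
  obtain ⟨x1, ex1⟩ : ∃ t : ℤ, 11 * t = 9 * x + (-2) * y + 6 * z :=
    ⟨9 * c + (0 * x + (-1) * y + 3 * z), by linear_combination (-(9) : ℤ) * hc⟩
  obtain ⟨y1, ey1⟩ : ∃ t : ℤ, 11 * t = (-2) * x + 9 * y + 6 * z :=
    ⟨-2 * c + (0 * x + 1 * y + 0 * z), by linear_combination (-(-2) : ℤ) * hc⟩
  obtain ⟨z1, ez1⟩ : ∃ t : ℤ, 11 * t = (-6) * x + (-6) * y + 7 * z :=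
    ⟨-6 * c + (0 * x + 0 * y + (-1) * z), by linear_combination (-(-6) : ℤ) * hc⟩
  have hr := rot (m := 11) (by norm_num) hN ex1 ey1 ez1 (by ring)
  exact hB.contra hr (nz5 ex1 (by norm_num) hz hxy hx) (nz5 ey1 (by norm_num) hz hxy hx)
    (nz5 ez1 (by norm_num) hz hxy hx)

theorem ex5 {N x y z : ℤ} (hB : Bad N) (h : Nm N x y z) : ¬ (x + y + 3 * z) % 11 = 0 := by
  intro h0
  obtain ⟨hN, hz, hxy, hx⟩ := h
  obtain ⟨c, hc⟩ := Int.dvd_of_emod_eq_zero h0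
  obtain ⟨x1, ex1⟩ : ∃ t : ℤ, 11 * t = 9 * x + (-2) * y + (-6) * z :=
    ⟨9 * c + (0 * x + (-1) * y + (-3) * z), by linear_combination (-(9) : ℤ) * hc⟩
  obtain ⟨y1, ey1⟩ : ∃ t : ℤ, 11 * t = (-2) * x + 9 * y + (-6) * z :=
    ⟨-2 * c + (0 * x + 1 * y + 0 * z), by linear_combination (-(-2) : ℤ) * hc⟩
  obtain ⟨z1, ez1⟩ : ∃ t : ℤ, 11 * t = 6 * x + 6 * y + 7 * z :=
    ⟨6 * c + (0 * x + 0 * y + (-1) * z), by linear_combination (-(6) : ℤ) * hc⟩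
  have hr := rot (m := 11) (by norm_num) hN ex1 ey1 ez1 (by ring)
  exact hB.contra hr (nz5 ex1 (by norm_num) hz hxy hx) (nz5 ey1 (by norm_num) hz hxy hx)
    (nz5 ez1 (by norm_num) hz hxy hx)

theorem ex6 {N x y z : ℤ} (hB : Bad N) (h : Nm N x y z) : ¬ (x + 3 * y - z) % 11 = 0 := by
  intro h0
  obtain ⟨hN, hz, hxy, hx⟩ := h
  obtain ⟨c, hc⟩ := Int.dvd_of_emod_eq_zero h0
  obtain ⟨x1, ex1⟩ : ∃ t : ℤ, 11 * t = 9 * x + (-6) * y + 2 * z :=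
    ⟨9 * c + (0 * x + (-3) * y + 1 * z), by linear_combination (-(9) : ℤ) * hc⟩
  obtain ⟨y1, ey1⟩ : ∃ t : ℤ, 11 * t = 6 * x + 7 * y + (-6) * z :=
    ⟨6 * c + (0 * x + (-1) * y + 0 * z), by linear_combination (-(6) : ℤ) * hc⟩
  obtain ⟨z1, ez1⟩ : ∃ t : ℤ, 11 * t = 2 * x + 6 * y + 9 * z :=
    ⟨2 * c + (0 * x + 0 * y + 1 * z), by linear_combination (-(2) : ℤ) * hc⟩
  have hr := rot (m := 11) (by norm_num) hN ex1 ey1 ez1 (by ring)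
  exact hB.contra hr (nz5 ex1 (by norm_num) hz hxy hx) (nz5 ey1 (by norm_num) hz hxy hx)
    (nz5 ez1 (by norm_num) hz hxy hx)

theorem ex7 {N x y z : ℤ} (hB : Bad N) (h : Nm N x y z) : ¬ (x + 3 * y + z) % 11 = 0 := by
  intro h0
  obtain ⟨hN, hz, hxy, hx⟩ := h
  obtain ⟨c, hc⟩ := Int.dvd_of_emod_eq_zero h0
  obtain ⟨x1, ex1⟩ : ∃ t : ℤ, 11 * t = 9 * x + (-6) * y + (-2) * z :=
    ⟨9 * c + (0 * x + (-3) * y + (-1) * z), by linear_combination (-(9) : ℤ) * hc⟩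
  obtain ⟨y1, ey1⟩ : ∃ t : ℤ, 11 * t = 6 * x + 7 * y + 6 * z :=
    ⟨6 * c + (0 * x + (-1) * y + 0 * z), by linear_combination (-(6) : ℤ) * hc⟩
  obtain ⟨z1, ez1⟩ : ∃ t : ℤ, 11 * t = (-2) * x + (-6) * y + 9 * z :=
    ⟨-2 * c + (0 * x + 0 * y + 1 * z), by linear_combination (-(-2) : ℤ) * hc⟩
  have hr := rot (m := 11) (by norm_num) hN ex1 ey1 ez1 (by ring)
  exact hB.contra hr (nz5 ex1 (by norm_num) hz hxy hx) (nz5 ey1 (by norm_num) hz hxy hx)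
    (nz5 ez1 (by norm_num) hz hxy hx)

theorem ex8 {N x y z : ℤ} (hB : Bad N) (h : Nm N x y z) : ¬ (x + 4 * y - 4 * z) % 11 = 0 := by
  intro h0
  obtain ⟨hN, hz, hxy, hx⟩ := h
  obtain ⟨c, hc⟩ := Int.dvd_of_emod_eq_zero h0
  obtain ⟨x1, ex1⟩ : ∃ t : ℤ, 11 * t = 7 * x + 6 * y + (-6) * z :=
    ⟨7 * c + (0 * x + (-2) * y + 2 * z), by linear_combination (-(7) : ℤ) * hc⟩
  obtain ⟨y1, ey1⟩ : ∃ t : ℤ, 11 * t = (-6) * x + 9 * y + 2 * z :=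
    ⟨-6 * c + (0 * x + 3 * y + (-2) * z), by linear_combination (-(-6) : ℤ) * hc⟩
  obtain ⟨z1, ez1⟩ : ∃ t : ℤ, 11 * t = 6 * x + 2 * y + 9 * z :=
    ⟨6 * c + (0 * x + (-2) * y + 3 * z), by linear_combination (-(6) : ℤ) * hc⟩
  have hr := rot (m := 11) (by norm_num) hN ex1 ey1 ez1 (by ring)
  exact hB.contra hr (nz5 ex1 (by norm_num) hz hxy hx) (nz5 ey1 (by norm_num) hz hxy hx)
    (nz5 ez1 (by norm_num) hz hxy hx)

theorem ex9 {N x y z : ℤ} (hB : Bad N) (h : Nm N x y z) : ¬ (x + 4 * y + 4 * z) % 11 = 0 := by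
  intro h0
  obtain ⟨hN, hz, hxy, hx⟩ := h
  obtain ⟨c, hc⟩ := Int.dvd_of_emod_eq_zero h0
  obtain ⟨x1, ex1⟩ : ∃ t : ℤ, 11 * t = 7 * x + 6 * y + 6 * z :=
    ⟨7 * c + (0 * x + (-2) * y + (-2) * z), by linear_combination (-(7) : ℤ) * hc⟩
  obtain ⟨y1, ey1⟩ : ∃ t : ℤ, 11 * t = (-6) * x + 9 * y + (-2) * z :=
    ⟨-6 * c + (0 * x + 3 * y + 2 * z), by linear_combination (-(-6) : ℤ) * hc⟩
  obtain ⟨z1, ez1⟩ : ∃ t : ℤ, 11 * t = (-6) * x + (-2) * y + 9 * z :=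
    ⟨-6 * c + (0 * x + 2 * y + 3 * z), by linear_combination (-(-6) : ℤ) * hc⟩
  have hr := rot (m := 11) (by norm_num) hN ex1 ey1 ez1 (by ring)
  exact hB.contra hr (nz5 ex1 (by norm_num) hz hxy hx) (nz5 ey1 (by norm_num) hz hxy hx)
    (nz5 ez1 (by norm_num) hz hxy hx)

theorem cast11 {N x y z : ℤ} (hN : x ^ 2 + y ^ 2 + z ^ 2 = N) (h : Sp11 N) :
    ((x : ZMod 11) ^ 2 + (y : ZMod 11) ^ 2 + (z : ZMod 11) ^ 2 = 2 ∨
    (x : ZMod 11) ^ 2 + (y : ZMod 11) ^ 2 + (z : ZMod 11) ^ 2 = 6 ∨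
    (x : ZMod 11) ^ 2 + (y : ZMod 11) ^ 2 + (z : ZMod 11) ^ 2 = 7 ∨
    (x : ZMod 11) ^ 2 + (y : ZMod 11) ^ 2 + (z : ZMod 11) ^ 2 = 8 ∨
    (x : ZMod 11) ^ 2 + (y : ZMod 11) ^ 2 + (z : ZMod 11) ^ 2 = 10) := by
  have hc : (x : ZMod 11) ^ 2 + (y : ZMod 11) ^ 2 + (z : ZMod 11) ^ 2 = (N : ZMod 11) := by
    rw [← hN]; push_cast; ring
  rw [hc]
  rcases h with h | h | h | h | h
  · left
    have := (emod_iff 11 (N - 2)).2 (by push_cast; omega)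
    push_cast at this
    exact sub_eq_zero.1 this
  · right; left
    have := (emod_iff 11 (N - 6)).2 (by push_cast; omega)
    push_cast at this
    exact sub_eq_zero.1 this
  · right; right; left
    have := (emod_iff 11 (N - 7)).2 (by push_cast; omega)
    push_cast at this
    exact sub_eq_zero.1 this
  · right; right; right; left
    have := (emod_iff 11 (N - 8)).2 (by push_cast; omega)
    push_cast at this
    exact sub_eq_zero.1 this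
  · right; right; right; right
    have := (emod_iff 11 (N - 10)).2 (by push_cast; omega)
    push_cast at this
    exact sub_eq_zero.1 this

theorem fin11 : ∀ x y z : ZMod 11, (x ^ 2 + y ^ 2 + z ^ 2 = 2 ∨ x ^ 2 + y ^ 2 + z ^ 2 = 6 ∨
    x ^ 2 + y ^ 2 + z ^ 2 = 7 ∨ x ^ 2 + y ^ 2 + z ^ 2 = 8 ∨ x ^ 2 + y ^ 2 + z ^ 2 = 10) → x - 4 * y - 4 * z = 0 ∨ x - 4 * y + 4 * z = 0 ∨ x - 3 * y - z = 0 ∨ x - 3 * y + z = 0 ∨ x + y - 3 * z = 0 ∨ x + y + 3 * z = 0 ∨ x + 3 * y - z = 0 ∨ x + 3 * y + z = 0 ∨ x + 4 * y - 4 * z = 0 ∨ x + 4 * y + 4 * z = 0 ∨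
    (z = 0 ∧ x - y = 0) := by
  decide +kernel

theorem base {N x y z : ℤ} (h3 : N % 3 = 0) (h9 : N % 9 ≠ 0) (h11 : Sp11 N)
    (hB : Bad N) (h : Nm N x y z) : z % 11 = 0 ∧ (x - y) % 11 = 0 := by
  have key := fin11 (x : ZMod 11) (y : ZMod 11) (z : ZMod 11) (cast11 h.1 h11)
  rcases key with k | k | k | k | k | k | k | k | k | k | ⟨k1, k2⟩
  · exact absurd ((emod_iff 11 (x - 4 * y - 4 * z)).1 (by push_cast; exact k)) (ex0 h3 h9 hB h)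
  · exact absurd ((emod_iff 11 (x - 4 * y + 4 * z)).1 (by push_cast; exact k)) (ex1 h3 h9 hB h)
  · exact absurd ((emod_iff 11 (x - 3 * y - z)).1 (by push_cast; exact k)) (ex2 h3 h9 hB h)
  · exact absurd ((emod_iff 11 (x - 3 * y + z)).1 (by push_cast; exact k)) (ex3 h3 h9 hB h)
  · exact absurd ((emod_iff 11 (x + y - 3 * z)).1 (by push_cast; exact k)) (ex4 hB h)
  · exact absurd ((emod_iff 11 (x + y + 3 * z)).1 (by push_cast; exact k)) (ex5 hB h)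
  · exact absurd ((emod_iff 11 (x + 3 * y - z)).1 (by push_cast; exact k)) (ex6 hB h)
  · exact absurd ((emod_iff 11 (x + 3 * y + z)).1 (by push_cast; exact k)) (ex7 hB h)
  · exact absurd ((emod_iff 11 (x + 4 * y - 4 * z)).1 (by push_cast; exact k)) (ex8 hB h)
  · exact absurd ((emod_iff 11 (x + 4 * y + 4 * z)).1 (by push_cast; exact k)) (ex9 hB h)
  · exact ⟨(emod_iff 11 z).1 k1, (emod_iff 11 (x - y)).1 (by push_cast; exact k2)⟩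

theorem step {N x y z : ℤ} (h3 : N % 3 = 0) (h9 : N % 9 ≠ 0) (h11 : Sp11 N)
    (hB : Bad N) (h : Nm N x y z) :
    ∃ X Y Z X' Y' Z' : ℤ, Nm N X Y Z ∧ Nm N X' Y' Z' ∧
      11 * (X - Y) = 7 * (x - y) + 12 * z ∧ 11 * Z = -6 * (x - y) + 7 * z ∧
      11 * (X' - Y') = 7 * (x - y) - 12 * z ∧ 11 * Z' = 6 * (x - y) + 7 * z := by
  obtain ⟨b1, b2⟩ := base h3 h9 h11 hB h
  obtain ⟨hN, hz, hxy, hx⟩ := h
  have hc' : (x - y - 3 * z) % 11 = 0 := by omega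
  have hd' : (x - y + 3 * z) % 11 = 0 := by omega
  obtain ⟨c, hc⟩ := Int.dvd_of_emod_eq_zero hc'
  obtain ⟨x1, ex1⟩ : ∃ t : ℤ, 11 * t = 9 * x + 2 * y + 6 * z :=
    ⟨9 * c + (0 * x + 1 * y + 3 * z), by linear_combination (-(9) : ℤ) * hc⟩
  obtain ⟨y1, ey1⟩ : ∃ t : ℤ, 11 * t = 2 * x + 9 * y + (-6) * z :=
    ⟨2 * c + (0 * x + 1 * y + 0 * z), by linear_combination (-(2) : ℤ) * hc⟩
  obtain ⟨z1, ez1⟩ : ∃ t : ℤ, 11 * t = (-6) * x + 6 * y + 7 * z :=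
    ⟨-6 * c + (0 * x + 0 * y + (-1) * z), by linear_combination (-(-6) : ℤ) * hc⟩
  have hr1 := rot (m := 11) (by norm_num) hN ex1 ey1 ez1 (by ring)
  obtain ⟨d, hd⟩ := Int.dvd_of_emod_eq_zero hd'
  obtain ⟨x2, ex2⟩ : ∃ t : ℤ, 11 * t = 9 * x + 2 * y + (-6) * z :=
    ⟨9 * d + (0 * x + 1 * y + (-3) * z), by linear_combination (-(9) : ℤ) * hd⟩
  obtain ⟨y2, ey2⟩ : ∃ t : ℤ, 11 * t = 2 * x + 9 * y + 6 * z :=
    ⟨2 * d + (0 * x + 1 * y + 0 * z), by linear_combination (-(2) : ℤ) * hd⟩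
  obtain ⟨z2, ez2⟩ : ∃ t : ℤ, 11 * t = 6 * x + (-6) * y + 7 * z :=
    ⟨6 * d + (0 * x + 0 * y + (-1) * z), by linear_combination (-(6) : ℤ) * hd⟩
  have hr2 := rot (m := 11) (by norm_num) hN ex2 ey2 ez2 (by ring)
  exact ⟨x1, y1, z1, x2, y2, z2,
    nm_mk (by norm_num) hr1 ex1 ey1 ez1 (by norm_num) (by norm_num) (by norm_num) hz hxy hx,
    nm_mk (by norm_num) hr2 ex2 ey2 ez2 (by norm_num) (by norm_num) (by norm_num) hz hxy hx,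
    by linarith, by linarith, by linarith, by linarith⟩

theorem pow11 {N : ℤ} (h3 : N % 3 = 0) (h9 : N % 9 ≠ 0) (h11 : Sp11 N)
    (hB : Bad N) (k : ℕ) : ∀ x y z : ℤ, Nm N x y z →
      (11 : ℤ) ^ k ∣ x - y ∧ (11 : ℤ) ^ k ∣ z := by
  induction k with
  | zero => intro x y z _; simp
  | succ k ih =>
    intro x y z h
    obtain ⟨X, Y, Z, X', Y', Z', hn1, hn2, e1, e2, e3, e4⟩ := step h3 h9 h11 hB h
    obtain ⟨⟨a1, ha1⟩, ⟨b1, hb1⟩⟩ := ih _ _ _ hn1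
    obtain ⟨⟨a2, ha2⟩, ⟨b2, hb2⟩⟩ := ih _ _ _ hn2
    have A1 : (11 : ℤ) ^ (k + 1) * a1 = 7 * (x - y) + 12 * z := by rw [← e1, ha1]; ring
    have B1 : (11 : ℤ) ^ (k + 1) * b1 = -6 * (x - y) + 7 * z := by rw [← e2, hb1]; ring
    have A2 : (11 : ℤ) ^ (k + 1) * a2 = 7 * (x - y) - 12 * z := by rw [← e3, ha2]; ring
    have B2 : (11 : ℤ) ^ (k + 1) * b2 = 6 * (x - y) + 7 * z := by rw [← e4, hb2]; ring
    have hd : 2 * (x - y) = (11 : ℤ) ^ (k + 1) * (a1 + a2 + b1 - b2) := by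
      linear_combination -A1 - A2 - B1 + B2
    have hz : 2 * z = (11 : ℤ) ^ (k + 1) * (3 * (a1 - a2) - 5 * (b1 + b2)) := by
      linear_combination -3 * A1 + 3 * A2 + 5 * B1 + 5 * B2
    exact ⟨⟨a1 - 3 * (a1 + a2 + b1 - b2) - 6 * (3 * (a1 - a2) - 5 * (b1 + b2)), by
        linear_combination -A1 - 3 * hd - 6 * hz⟩,
      ⟨b1 + 3 * (a1 + a2 + b1 - b2) - 3 * (3 * (a1 - a2) - 5 * (b1 + b2)), by
        linear_combination -B1 + 3 * hd - 3 * hz⟩⟩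

end CaseE

/-- The case `3 ∥ N`, `-N` a nonzero square modulo `11`. -/
theorem caseE (h : ThreeStmt) {N : ℤ} (hN : 0 < N) (h8 : N % 8 = 3) (h5 : N % 5 = 2)
    (h3 : N % 3 = 0) (h9 : N % 9 ≠ 0) (h11 : Sp11 N) : ¬ Bad N := by
  intro hB
  obtain ⟨x, y, z, hn⟩ := exists_nm h hN h8 h5 hB
  have h1 : z = 0 := eq_zero_of_pow_dvd (p := 11) (by norm_num)
    fun k => by exact_mod_cast (CaseE.pow11 h3 h9 h11 hB k x y z hn).2
  obtain ⟨-, -, ho⟩ := all_odd hn.1 h8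
  omega

end Pool.Agent.Lib.MP_dc5ea1_nt
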