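import Pool.Agent.Lib.MP_dc5ea1_nt.CaseE

/-!
MP_dc5ea1_nt: the case `-N` a square modulo `7` and a nonzero square modulo `11` (neighbours of
norm 7, 11, 77 and descent) (helper3).
-/

set_option autoImplicit false

namespace Pool.Agent.Lib.MP_dc5ea1_nt

/-- `-N` is a square modulo `7`. -/
def Sp7 (N : ℤ) : Prop := N % 7 = 0 ∨ N % 7 = 3 ∨ N % 7 = 5 ∨ N % 7 = 6

namespace CaseF

theorem exa0 {N x y z : ℤ} (hB : Bad N) (h : Nm N x y z) : ¬ (x - 3 * y - 2 * z) % 7 = 0 := by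
  intro h0
  obtain ⟨hN, hz, hxy, hx⟩ := h
  obtain ⟨c, hc⟩ := Int.dvd_of_emod_eq_zero h0
  obtain ⟨x1, ex1⟩ : ∃ t : ℤ, 7 * t = 3 * x + (-2) * y + (-6) * z :=
    ⟨3 * c + (0 * x + 1 * y + 0 * z), by linear_combination (-(3) : ℤ) * hc⟩
  obtain ⟨y1, ey1⟩ : ∃ t : ℤ, 7 * t = 6 * x + 3 * y + 2 * z :=
    ⟨6 * c + (0 * x + 3 * y + 2 * z), by linear_combination (-(6) : ℤ) * hc⟩
  obtain ⟨z1, ez1⟩ : ∃ t : ℤ, 7 * t = 2 * x + (-6) * y + 3 * z :=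
    ⟨2 * c + (0 * x + 0 * y + 1 * z), by linear_combination (-(2) : ℤ) * hc⟩
  have hr := rot (m := 7) (by norm_num) hN ex1 ey1 ez1 (by ring)
  exact hB.contra hr (nz5 ex1 (by norm_num) hz hxy hx) (nz5 ey1 (by norm_num) hz hxy hx)
    (nz5 ez1 (by norm_num) hz hxy hx)

theorem exa1 {N x y z : ℤ} (hB : Bad N) (h : Nm N x y z) : ¬ (x - 3 * y + 2 * z) % 7 = 0 := by
  intro h0
  obtain ⟨hN, hz, hxy, hx⟩ := h
  obtain ⟨c, hc⟩ := Int.dvd_of_emod_eq_zero h0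
  obtain ⟨x1, ex1⟩ : ∃ t : ℤ, 7 * t = 3 * x + (-2) * y + 6 * z :=
    ⟨3 * c + (0 * x + 1 * y + 0 * z), by linear_combination (-(3) : ℤ) * hc⟩
  obtain ⟨y1, ey1⟩ : ∃ t : ℤ, 7 * t = 6 * x + 3 * y + (-2) * z :=
    ⟨6 * c + (0 * x + 3 * y + (-2) * z), by linear_combination (-(6) : ℤ) * hc⟩
  obtain ⟨z1, ez1⟩ : ∃ t : ℤ, 7 * t = (-2) * x + 6 * y + 3 * z :=
    ⟨-2 * c + (0 * x + 0 * y + 1 * z), by linear_combination (-(-2) : ℤ) * hc⟩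
  have hr := rot (m := 7) (by norm_num) hN ex1 ey1 ez1 (by ring)
  exact hB.contra hr (nz5 ex1 (by norm_num) hz hxy hx) (nz5 ey1 (by norm_num) hz hxy hx)
    (nz5 ez1 (by norm_num) hz hxy hx)

theorem exa2 {N x y z : ℤ} (hB : Bad N) (h : Nm N x y z) : ¬ (x + 2 * y - 3 * z) % 7 = 0 := by
  intro h0
  obtain ⟨hN, hz, hxy, hx⟩ := h
  obtain ⟨c, hc⟩ := Int.dvd_of_emod_eq_zero h0
  obtain ⟨x1, ex1⟩ : ∃ t : ℤ, 7 * t = 3 * x + 6 * y + (-2) * z :=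
    ⟨3 * c + (0 * x + 0 * y + 1 * z), by linear_combination (-(3) : ℤ) * hc⟩
  obtain ⟨y1, ey1⟩ : ∃ t : ℤ, 7 * t = (-2) * x + 3 * y + 6 * z :=
    ⟨-2 * c + (0 * x + 1 * y + 0 * z), by linear_combination (-(-2) : ℤ) * hc⟩
  obtain ⟨z1, ez1⟩ : ∃ t : ℤ, 7 * t = 6 * x + (-2) * y + 3 * z :=
    ⟨6 * c + (0 * x + (-2) * y + 3 * z), by linear_combination (-(6) : ℤ) * hc⟩
  have hr := rot (m := 7) (by norm_num) hN ex1 ey1 ez1 (by ring)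
  exact hB.contra hr (nz5 ex1 (by norm_num) hz hxy hx) (nz5 ey1 (by norm_num) hz hxy hx)
    (nz5 ez1 (by norm_num) hz hxy hx)

theorem exa3 {N x y z : ℤ} (hB : Bad N) (h : Nm N x y z) : ¬ (x + 2 * y + 3 * z) % 7 = 0 := by
  intro h0
  obtain ⟨hN, hz, hxy, hx⟩ := h
  obtain ⟨c, hc⟩ := Int.dvd_of_emod_eq_zero h0
  obtain ⟨x1, ex1⟩ : ∃ t : ℤ, 7 * t = 3 * x + 6 * y + 2 * z :=
    ⟨3 * c + (0 * x + 0 * y + (-1) * z), by linear_combination (-(3) : ℤ) * hc⟩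
  obtain ⟨y1, ey1⟩ : ∃ t : ℤ, 7 * t = (-2) * x + 3 * y + (-6) * z :=
    ⟨-2 * c + (0 * x + 1 * y + 0 * z), by linear_combination (-(-2) : ℤ) * hc⟩
  obtain ⟨z1, ez1⟩ : ∃ t : ℤ, 7 * t = (-6) * x + 2 * y + 3 * z :=
    ⟨-6 * c + (0 * x + 2 * y + 3 * z), by linear_combination (-(-6) : ℤ) * hc⟩
  have hr := rot (m := 7) (by norm_num) hN ex1 ey1 ez1 (by ring)
  exact hB.contra hr (nz5 ex1 (by norm_num) hz hxy hx) (nz5 ey1 (by norm_num) hz hxy hx)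
    (nz5 ez1 (by norm_num) hz hxy hx)

theorem exb0 {N x y z : ℤ} (hB : Bad N) (h : Nm N x y z) : ¬ (x + y - 3 * z) % 11 = 0 := by
  intro h0
  obtain ⟨hN, hz, hxy, hx⟩ := h
  obtain ⟨c, hc⟩ := Int.dvd_of_emod_eq_zero h0
  obtain ⟨x1, ex1⟩ : ∃ t : ℤ, 11 * t = 9 * x + (-2) * y + 6 * z :=
    ⟨9 * c + (0 * x + (-1) * y + 3 * z), by linear_combination (-(9) : ℤ) * hc⟩
  obtain ⟨y1, ey1⟩ : ∃ t : ℤ, 11 * t = (-2) * x + 9 * y + 6 * z :=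
    ⟨-2 * c + (0 * x + 1 * y + 0 * z), by linear_combination (-(-2) : ℤ) * hc⟩
  obtain ⟨z1, ez1⟩ : ∃ t : ℤ, 11 * t = (-6) * x + (-6) * y + 7 * z :=
    ⟨-6 * c + (0 * x + 0 * y + (-1) * z), by linear_combination (-(-6) : ℤ) * hc⟩
  have hr := rot (m := 11) (by norm_num) hN ex1 ey1 ez1 (by ring)
  exact hB.contra hr (nz5 ex1 (by norm_num) hz hxy hx) (nz5 ey1 (by norm_num) hz hxy hx)
    (nz5 ez1 (by norm_num) hz hxy hx)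

theorem exb1 {N x y z : ℤ} (hB : Bad N) (h : Nm N x y z) : ¬ (x + y + 3 * z) % 11 = 0 := by
  intro h0
  obtain ⟨hN, hz, hxy, hx⟩ := h
  obtain ⟨c, hc⟩ := Int.dvd_of_emod_eq_zero h0
  obtain ⟨x1, ex1⟩ : ∃ t : ℤ, 11 * t = 9 * x + (-2) * y + (-6) * z :=
    ⟨9 * c + (0 * x + (-1) * y + (-3) * z), by linear_combination (-(9) : ℤ) * hc⟩
  obtain ⟨y1, ey1⟩ : ∃ t : ℤ, 11 * t = (-2) * x + 9 * y + (-6) * z :=
    ⟨-2 * c + (0 * x + 1 * y + 0 * z), by linear_combination (-(-2) : ℤ) * hc⟩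
  obtain ⟨z1, ez1⟩ : ∃ t : ℤ, 11 * t = 6 * x + 6 * y + 7 * z :=
    ⟨6 * c + (0 * x + 0 * y + (-1) * z), by linear_combination (-(6) : ℤ) * hc⟩
  have hr := rot (m := 11) (by norm_num) hN ex1 ey1 ez1 (by ring)
  exact hB.contra hr (nz5 ex1 (by norm_num) hz hxy hx) (nz5 ey1 (by norm_num) hz hxy hx)
    (nz5 ez1 (by norm_num) hz hxy hx)

theorem exb2 {N x y z : ℤ} (hB : Bad N) (h : Nm N x y z) : ¬ (x + 3 * y - z) % 11 = 0 := by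
  intro h0
  obtain ⟨hN, hz, hxy, hx⟩ := h
  obtain ⟨c, hc⟩ := Int.dvd_of_emod_eq_zero h0
  obtain ⟨x1, ex1⟩ : ∃ t : ℤ, 11 * t = 9 * x + (-6) * y + 2 * z :=
    ⟨9 * c + (0 * x + (-3) * y + 1 * z), by linear_combination (-(9) : ℤ) * hc⟩
  obtain ⟨y1, ey1⟩ : ∃ t : ℤ, 11 * t = 6 * x + 7 * y + (-6) * z :=
    ⟨6 * c + (0 * x + (-1) * y + 0 * z), by linear_combination (-(6) : ℤ) * hc⟩
  obtain ⟨z1, ez1⟩ : ∃ t : ℤ, 11 * t = 2 * x + 6 * y + 9 * z :=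
    ⟨2 * c + (0 * x + 0 * y + 1 * z), by linear_combination (-(2) : ℤ) * hc⟩
  have hr := rot (m := 11) (by norm_num) hN ex1 ey1 ez1 (by ring)
  exact hB.contra hr (nz5 ex1 (by norm_num) hz hxy hx) (nz5 ey1 (by norm_num) hz hxy hx)
    (nz5 ez1 (by norm_num) hz hxy hx)

theorem exb3 {N x y z : ℤ} (hB : Bad N) (h : Nm N x y z) : ¬ (x + 3 * y + z) % 11 = 0 := by
  intro h0
  obtain ⟨hN, hz, hxy, hx⟩ := h
  obtain ⟨c, hc⟩ := Int.dvd_of_emod_eq_zero h0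
  obtain ⟨x1, ex1⟩ : ∃ t : ℤ, 11 * t = 9 * x + (-6) * y + (-2) * z :=
    ⟨9 * c + (0 * x + (-3) * y + (-1) * z), by linear_combination (-(9) : ℤ) * hc⟩
  obtain ⟨y1, ey1⟩ : ∃ t : ℤ, 11 * t = 6 * x + 7 * y + 6 * z :=
    ⟨6 * c + (0 * x + (-1) * y + 0 * z), by linear_combination (-(6) : ℤ) * hc⟩
  obtain ⟨z1, ez1⟩ : ∃ t : ℤ, 11 * t = (-2) * x + (-6) * y + 9 * z :=
    ⟨-2 * c + (0 * x + 0 * y + 1 * z), by linear_combination (-(-2) : ℤ) * hc⟩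
  have hr := rot (m := 11) (by norm_num) hN ex1 ey1 ez1 (by ring)
  exact hB.contra hr (nz5 ex1 (by norm_num) hz hxy hx) (nz5 ey1 (by norm_num) hz hxy hx)
    (nz5 ez1 (by norm_num) hz hxy hx)

theorem exb4 {N x y z : ℤ} (hB : Bad N) (h : Nm N x y z) : ¬ (x + 4 * y - 4 * z) % 11 = 0 := by
  intro h0
  obtain ⟨hN, hz, hxy, hx⟩ := h
  obtain ⟨c, hc⟩ := Int.dvd_of_emod_eq_zero h0
  obtain ⟨x1, ex1⟩ : ∃ t : ℤ, 11 * t = 7 * x + 6 * y + (-6) * z :=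
    ⟨7 * c + (0 * x + (-2) * y + 2 * z), by linear_combination (-(7) : ℤ) * hc⟩
  obtain ⟨y1, ey1⟩ : ∃ t : ℤ, 11 * t = (-6) * x + 9 * y + 2 * z :=
    ⟨-6 * c + (0 * x + 3 * y + (-2) * z), by linear_combination (-(-6) : ℤ) * hc⟩
  obtain ⟨z1, ez1⟩ : ∃ t : ℤ, 11 * t = 6 * x + 2 * y + 9 * z :=
    ⟨6 * c + (0 * x + (-2) * y + 3 * z), by linear_combination (-(6) : ℤ) * hc⟩
  have hr := rot (m := 11) (by norm_num) hN ex1 ey1 ez1 (by ring)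
  exact hB.contra hr (nz5 ex1 (by norm_num) hz hxy hx) (nz5 ey1 (by norm_num) hz hxy hx)
    (nz5 ez1 (by norm_num) hz hxy hx)

theorem exb5 {N x y z : ℤ} (hB : Bad N) (h : Nm N x y z) : ¬ (x + 4 * y + 4 * z) % 11 = 0 := by
  intro h0
  obtain ⟨hN, hz, hxy, hx⟩ := h
  obtain ⟨c, hc⟩ := Int.dvd_of_emod_eq_zero h0
  obtain ⟨x1, ex1⟩ : ∃ t : ℤ, 11 * t = 7 * x + 6 * y + 6 * z :=
    ⟨7 * c + (0 * x + (-2) * y + (-2) * z), by linear_combination (-(7) : ℤ) * hc⟩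
  obtain ⟨y1, ey1⟩ : ∃ t : ℤ, 11 * t = (-6) * x + 9 * y + (-2) * z :=
    ⟨-6 * c + (0 * x + 3 * y + 2 * z), by linear_combination (-(-6) : ℤ) * hc⟩
  obtain ⟨z1, ez1⟩ : ∃ t : ℤ, 11 * t = (-6) * x + (-2) * y + 9 * z :=
    ⟨-6 * c + (0 * x + 2 * y + 3 * z), by linear_combination (-(-6) : ℤ) * hc⟩
  have hr := rot (m := 11) (by norm_num) hN ex1 ey1 ez1 (by ring)
  exact hB.contra hr (nz5 ex1 (by norm_num) hz hxy hx) (nz5 ey1 (by norm_num) hz hxy hx)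
    (nz5 ez1 (by norm_num) hz hxy hx)

theorem exc0 {N x y z : ℤ} (hB : Bad N) (h : Nm N x y z) (h7 : (x + 3 * y - 2 * z) % 7 = 0) : ¬ (x - 4 * y - 4 * z) % 11 = 0 := by
  intro h0
  obtain ⟨hN, hz, hxy, hx⟩ := h
  obtain ⟨c, hc⟩ := Int.dvd_of_emod_eq_zero h7
  obtain ⟨d, hd⟩ := Int.dvd_of_emod_eq_zero h0
  obtain ⟨x1, ex1⟩ : ∃ t : ℤ, 77 * t = 69 * x + 32 * y + (-12) * z :=
    ⟨138 * c + 2 * (0 * x + (-25) * y + 18 * z) - (207) * d - 3 * (0 * x + 28 * y + 24 * z), by linear_combination (-(1518) : ℤ) * hc + (1449) * hd⟩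
  obtain ⟨y1, ey1⟩ : ∃ t : ℤ, 77 * t = (-32) * x + 51 * y + (-48) * z :=
    ⟨-64 * c + 2 * (0 * x + 21 * y + (-16) * z) - (-96) * d - 3 * (0 * x + (-7) * y + (-16) * z), by linear_combination (-(-704) : ℤ) * hc + (-672) * hd⟩
  obtain ⟨z1, ez1⟩ : ∃ t : ℤ, 77 * t = (-12) * x + 48 * y + 59 * z :=
    ⟨-24 * c + 2 * (0 * x + 12 * y + 5 * z) - (-36) * d - 3 * (0 * x + 0 * y + 1 * z), by linear_combination (-(-264) : ℤ) * hc + (-252) * hd⟩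
  have hr := rot (m := 77) (by norm_num) hN ex1 ey1 ez1 (by ring)
  exact hB.contra hr (nz5 ex1 (by norm_num) hz hxy hx) (nz5 ey1 (by norm_num) hz hxy hx)
    (nz5 ez1 (by norm_num) hz hxy hx)

theorem exc1 {N x y z : ℤ} (hB : Bad N) (h : Nm N x y z) (h7 : (x + 3 * y - 2 * z) % 7 = 0) : ¬ (x - 4 * y + 4 * z) % 11 = 0 := by
  intro h0
  obtain ⟨hN, hz, hxy, hx⟩ := h
  obtain ⟨c, hc⟩ := Int.dvd_of_emod_eq_zero h7
  obtain ⟨d, hd⟩ := Int.dvd_of_emod_eq_zero h0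
  obtain ⟨x1, ex1⟩ : ∃ t : ℤ, 77 * t = 3 * x + (-12) * y + (-76) * z :=
    ⟨6 * c + 2 * (0 * x + (-3) * y + (-10) * z) - (9) * d - 3 * (0 * x + 0 * y + (-8) * z), by linear_combination (-(66) : ℤ) * hc + (63) * hd⟩
  obtain ⟨y1, ey1⟩ : ∃ t : ℤ, 77 * t = (-36) * x + 67 * y + (-12) * z :=
    ⟨-72 * c + 2 * (0 * x + 25 * y + (-12) * z) - (-108) * d - 3 * (0 * x + (-7) * y + 12 * z), by linear_combination (-(-792) : ℤ) * hc + (-756) * hd⟩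
  obtain ⟨z1, ez1⟩ : ∃ t : ℤ, 77 * t = 68 * x + 36 * y + (-3) * z :=
    ⟨136 * c + 2 * (0 * x + (-24) * y + 19 * z) - (204) * d - 3 * (0 * x + 28 * y + (-25) * z), by linear_combination (-(1496) : ℤ) * hc + (1428) * hd⟩
  have hr := rot (m := 77) (by norm_num) hN ex1 ey1 ez1 (by ring)
  exact hB.contra hr (nz5 ex1 (by norm_num) hz hxy hx) (nz5 ey1 (by norm_num) hz hxy hx)
    (nz5 ez1 (by norm_num) hz hxy hx)

theorem exc2 {N x y z : ℤ} (hB : Bad N) (h : Nm N x y z) (h7 : (x + 3 * y - 2 * z) % 7 = 0) : ¬ (x - y - 3 * z) % 11 = 0 := by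
  intro h0
  obtain ⟨hN, hz, hxy, hx⟩ := h
  obtain ⟨c, hc⟩ := Int.dvd_of_emod_eq_zero h7
  obtain ⟨d, hd⟩ := Int.dvd_of_emod_eq_zero h0
  obtain ⟨x1, ex1⟩ : ∃ t : ℤ, 77 * t = 51 * x + 48 * y + (-32) * z :=
    ⟨102 * c + 2 * (0 * x + (-15) * y + 10 * z) - (153) * d - 3 * (0 * x + 9 * y + 11 * z), by linear_combination (-(1122) : ℤ) * hc + (1071) * hd⟩
  obtain ⟨y1, ey1⟩ : ∃ t : ℤ, 77 * t = (-48) * x + 59 * y + 12 * z :=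
    ⟨-96 * c + 2 * (0 * x + 29 * y + (-12) * z) - (-144) * d - 3 * (0 * x + 1 * y + (-12) * z), by linear_combination (-(-1056) : ℤ) * hc + (-1008) * hd⟩
  obtain ⟨z1, ez1⟩ : ∃ t : ℤ, 77 * t = 32 * x + 12 * y + 69 * z :=
    ⟨64 * c + 2 * (0 * x + (-12) * y + 19 * z) - (96) * d - 3 * (0 * x + 4 * y + 15 * z), by linear_combination (-(704) : ℤ) * hc + (672) * hd⟩
  have hr := rot (m := 77) (by norm_num) hN ex1 ey1 ez1 (by ring)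
  exact hB.contra hr (nz5 ex1 (by norm_num) hz hxy hx) (nz5 ey1 (by norm_num) hz hxy hx)
    (nz5 ez1 (by norm_num) hz hxy hx)

theorem exc3 {N x y z : ℤ} (hB : Bad N) (h : Nm N x y z) (h7 : (x + 3 * y - 2 * z) % 7 = 0) : ¬ (x - y + 3 * z) % 11 = 0 := by
  intro h0
  obtain ⟨hN, hz, hxy, hx⟩ := h
  obtain ⟨c, hc⟩ := Int.dvd_of_emod_eq_zero h7
  obtain ⟨d, hd⟩ := Int.dvd_of_emod_eq_zero h0
  obtain ⟨x1, ex1⟩ : ∃ t : ℤ, 77 * t = 13 * x + (-24) * y + 72 * z :=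
    ⟨26 * c + 2 * (0 * x + (-9) * y + 14 * z) - (39) * d - 3 * (0 * x + (-1) * y + 3 * z), by linear_combination (-(286) : ℤ) * hc + (273) * hd⟩
  obtain ⟨y1, ey1⟩ : ∃ t : ℤ, 77 * t = 72 * x + 27 * y + (-4) * z :=
    ⟨144 * c + 2 * (0 * x + (-27) * y + 20 * z) - (216) * d - 3 * (0 * x + 9 * y + (-20) * z), by linear_combination (-(1584) : ℤ) * hc + (1512) * hd⟩
  obtain ⟨z1, ez1⟩ : ∃ t : ℤ, 77 * t = (-24) * x + 68 * y + 27 * z :=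
    ⟨-48 * c + 2 * (0 * x + 20 * y + (-3) * z) - (-72) * d - 3 * (0 * x + 4 * y + 9 * z), by linear_combination (-(-528) : ℤ) * hc + (-504) * hd⟩
  have hr := rot (m := 77) (by norm_num) hN ex1 ey1 ez1 (by ring)
  exact hB.contra hr (nz5 ex1 (by norm_num) hz hxy hx) (nz5 ey1 (by norm_num) hz hxy hx)
    (nz5 ez1 (by norm_num) hz hxy hx)

theorem cast7 {N x y z : ℤ} (hN : x ^ 2 + y ^ 2 + z ^ 2 = N) (h : Sp7 N) :
    ((x : ZMod 7) ^ 2 + (y : ZMod 7) ^ 2 + (z : ZMod 7) ^ 2 = 0 ∨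
    (x : ZMod 7) ^ 2 + (y : ZMod 7) ^ 2 + (z : ZMod 7) ^ 2 = 3 ∨
    (x : ZMod 7) ^ 2 + (y : ZMod 7) ^ 2 + (z : ZMod 7) ^ 2 = 5 ∨
    (x : ZMod 7) ^ 2 + (y : ZMod 7) ^ 2 + (z : ZMod 7) ^ 2 = 6) := by
  have hc : (x : ZMod 7) ^ 2 + (y : ZMod 7) ^ 2 + (z : ZMod 7) ^ 2 = (N : ZMod 7) := by
    rw [← hN]; push_cast; ring
  rw [hc]
  rcases h with h | h | h | h
  · left
    exact (emod_iff 7 N).2 (by push_cast; omega)
  · right; left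
    have := (emod_iff 7 (N - 3)).2 (by push_cast; omega)
    push_cast at this
    exact sub_eq_zero.1 this
  · right; right; left
    have := (emod_iff 7 (N - 5)).2 (by push_cast; omega)
    push_cast at this
    exact sub_eq_zero.1 this
  · right; right; right
    have := (emod_iff 7 (N - 6)).2 (by push_cast; omega)
    push_cast at this
    exact sub_eq_zero.1 this

theorem fin7 : ∀ x y z : ZMod 7, (x ^ 2 + y ^ 2 + z ^ 2 = 0 ∨ x ^ 2 + y ^ 2 + z ^ 2 = 3 ∨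
    x ^ 2 + y ^ 2 + z ^ 2 = 5 ∨ x ^ 2 + y ^ 2 + z ^ 2 = 6) → x - 3 * y - 2 * z = 0 ∨ x - 3 * y + 2 * z = 0 ∨ x + 2 * y - 3 * z = 0 ∨ x + 2 * y + 3 * z = 0 ∨ x + 3 * y - 2 * z = 0 ∨ x + 3 * y + 2 * z = 0 ∨ x - 2 * y + 3 * z = 0 ∨ x - 2 * y - 3 * z = 0 := by
  decide +kernel

theorem start {N x y z : ℤ} (h7 : Sp7 N) (hB : Bad N) (h : Nm N x y z) :
    ∃ x' y' z' : ℤ, Nm N x' y' z' ∧ (x' + 3 * y' - 2 * z') % 7 = 0 := by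
  rcases fin7 (x : ZMod 7) (y : ZMod 7) (z : ZMod 7) (cast7 h.1 h7) with k | k | k | k | k | k | k | k
  · exact absurd ((emod_iff 7 (x - 3 * y - 2 * z)).1 (by push_cast; exact k)) (exa0 hB h)
  · exact absurd ((emod_iff 7 (x - 3 * y + 2 * z)).1 (by push_cast; exact k)) (exa1 hB h)
  · exact absurd ((emod_iff 7 (x + 2 * y - 3 * z)).1 (by push_cast; exact k)) (exa2 hB h)
  · exact absurd ((emod_iff 7 (x + 2 * y + 3 * z)).1 (by push_cast; exact k)) (exa3 hB h)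
  · exact ⟨x, y, z, h, (emod_iff 7 (x + 3 * y - 2 * z)).1 (by push_cast; exact k)⟩
  · have := (emod_iff 7 (x + 3 * y + 2 * z)).1 (by push_cast; exact k)
    exact ⟨x, y, -z, h.neg_z, by omega⟩
  · have := (emod_iff 7 (x - 2 * y + 3 * z)).1 (by push_cast; exact k)
    exact ⟨y, x, -z, h.swap.neg_z, by omega⟩
  · have := (emod_iff 7 (x - 2 * y - 3 * z)).1 (by push_cast; exact k)
    exact ⟨y, x, z, h.swap, by omega⟩

theorem fin11 : ∀ x y z : ZMod 11, (x ^ 2 + y ^ 2 + z ^ 2 = 2 ∨ x ^ 2 + y ^ 2 + z ^ 2 = 6 ∨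
    x ^ 2 + y ^ 2 + z ^ 2 = 7 ∨ x ^ 2 + y ^ 2 + z ^ 2 = 8 ∨ x ^ 2 + y ^ 2 + z ^ 2 = 10) → x + y - 3 * z = 0 ∨ x + y + 3 * z = 0 ∨ x + 3 * y - z = 0 ∨ x + 3 * y + z = 0 ∨ x + 4 * y - 4 * z = 0 ∨ x + 4 * y + 4 * z = 0 ∨ x - 4 * y - 4 * z = 0 ∨ x - 4 * y + 4 * z = 0 ∨ x - y - 3 * z = 0 ∨ x - y + 3 * z = 0 ∨
    (z = 0 ∧ 3 * x + 2 * y = 0) := by
  decide +kernel

theorem base {N x y z : ℤ} (h11 : Sp11 N) (hB : Bad N) (h : Nm N x y z)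
    (hs : (x + 3 * y - 2 * z) % 7 = 0) : z % 11 = 0 ∧ (3 * x + 2 * y) % 11 = 0 := by
  rcases fin11 (x : ZMod 11) (y : ZMod 11) (z : ZMod 11) (CaseE.cast11 h.1 h11) with k | k | k | k | k | k | k | k | k | k | ⟨k1, k2⟩
  · exact absurd ((emod_iff 11 (x + y - 3 * z)).1 (by push_cast; exact k)) (exb0 hB h)
  · exact absurd ((emod_iff 11 (x + y + 3 * z)).1 (by push_cast; exact k)) (exb1 hB h)
  · exact absurd ((emod_iff 11 (x + 3 * y - z)).1 (by push_cast; exact k)) (exb2 hB h)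
  · exact absurd ((emod_iff 11 (x + 3 * y + z)).1 (by push_cast; exact k)) (exb3 hB h)
  · exact absurd ((emod_iff 11 (x + 4 * y - 4 * z)).1 (by push_cast; exact k)) (exb4 hB h)
  · exact absurd ((emod_iff 11 (x + 4 * y + 4 * z)).1 (by push_cast; exact k)) (exb5 hB h)
  · exact absurd ((emod_iff 11 (x - 4 * y - 4 * z)).1 (by push_cast; exact k)) (exc0 hB h hs)
  · exact absurd ((emod_iff 11 (x - 4 * y + 4 * z)).1 (by push_cast; exact k)) (exc1 hB h hs)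
  · exact absurd ((emod_iff 11 (x - y - 3 * z)).1 (by push_cast; exact k)) (exc2 hB h hs)
  · exact absurd ((emod_iff 11 (x - y + 3 * z)).1 (by push_cast; exact k)) (exc3 hB h hs)
  · exact ⟨(emod_iff 11 z).1 k1, (emod_iff 11 (3 * x + 2 * y)).1 (by push_cast; exact k2)⟩

theorem step {N x y z : ℤ} (h11 : Sp11 N) (hB : Bad N) (h : Nm N x y z)
    (hs : (x + 3 * y - 2 * z) % 7 = 0) :
    ∃ X Y Z X' Y' Z' : ℤ, (Nm N X Y Z ∧ (X + 3 * Y - 2 * Z) % 7 = 0) ∧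
      (Nm N X' Y' Z' ∧ (X' + 3 * Y' - 2 * Z') % 7 = 0) ∧
      11 * Z = 3 * (3 * x + 2 * y) - 2 * z ∧ 11 * (3 * X + 2 * Y) = -2 * (3 * x + 2 * y) - 39 * z ∧
      11 * Z' = -3 * (3 * x + 2 * y) - 2 * z ∧
      11 * (3 * X' + 2 * Y') = -2 * (3 * x + 2 * y) + 39 * z := by
  obtain ⟨b1, b2⟩ := base h11 hB h hs
  obtain ⟨hN, hz, hxy, hx⟩ := h
  have hc' : (x - 3 * y + z) % 11 = 0 := by omega
  have hd' : (x - 3 * y - z) % 11 = 0 := by omega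
  obtain ⟨c, hc⟩ := Int.dvd_of_emod_eq_zero hc'
  obtain ⟨x1, ex1⟩ : ∃ t : ℤ, 11 * t = 9 * x + 6 * y + (-2) * z :=
    ⟨9 * c + (0 * x + 3 * y + (-1) * z), by linear_combination (-(9) : ℤ) * hc⟩
  obtain ⟨y1, ey1⟩ : ∃ t : ℤ, 11 * t = (-6) * x + 7 * y + (-6) * z :=
    ⟨-6 * c + (0 * x + (-1) * y + 0 * z), by linear_combination (-(-6) : ℤ) * hc⟩
  obtain ⟨z1, ez1⟩ : ∃ t : ℤ, 11 * t = (-2) * x + 6 * y + 9 * z :=
    ⟨-2 * c + (0 * x + 0 * y + 1 * z), by linear_combination (-(-2) : ℤ) * hc⟩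
  have hr1 := rot (m := 11) (by norm_num) hN ex1 ey1 ez1 (by ring)
  obtain ⟨d, hd⟩ := Int.dvd_of_emod_eq_zero hd'
  obtain ⟨x2, ex2⟩ : ∃ t : ℤ, 11 * t = 9 * x + 6 * y + 2 * z :=
    ⟨9 * d + (0 * x + 3 * y + 1 * z), by linear_combination (-(9) : ℤ) * hd⟩
  obtain ⟨y2, ey2⟩ : ∃ t : ℤ, 11 * t = (-6) * x + 7 * y + 6 * z :=
    ⟨-6 * d + (0 * x + (-1) * y + 0 * z), by linear_combination (-(-6) : ℤ) * hd⟩
  obtain ⟨z2, ez2⟩ : ∃ t : ℤ, 11 * t = 2 * x + (-6) * y + 9 * z :=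
    ⟨2 * d + (0 * x + 0 * y + 1 * z), by linear_combination (-(2) : ℤ) * hd⟩
  have hr2 := rot (m := 11) (by norm_num) hN ex2 ey2 ez2 (by ring)
  have ea1 : 11 * (-z1) = 2 * x + (-6) * y + (-9) * z := by linear_combination -ez1
  have ec2 : 11 * (-x2) = (-9) * x + (-6) * y + (-2) * z := by linear_combination -ex2
  have hr1' : (-z1) ^ 2 + y1 ^ 2 + x1 ^ 2 = N := by rw [← hr1]; ring
  have hr2' : z2 ^ 2 + y2 ^ 2 + (-x2) ^ 2 = N := by rw [← hr2]; ring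
  refine ⟨-z1, y1, x1, z2, y2, -x2,
    ⟨nm_mk (by norm_num) hr1' ea1 ey1 ex1 (by norm_num) (by norm_num) (by norm_num) hz hxy hx, ?_⟩,
    ⟨nm_mk (by norm_num) hr2' ez2 ey2 ec2 (by norm_num) (by norm_num) (by norm_num) hz hxy hx, ?_⟩,
    by linarith, by linarith, by linarith, by linarith⟩
  · have e : 11 * (-z1 + 3 * y1 - 2 * x1) = -34 * x + 3 * y - 23 * z := by linarith
    clear hr1 hr2 hr1' hr2' hN hc hd hc' hd' b1 b2 hB ex1 ey1 ez1 ex2 ey2 ez2 ea1 ec2 hz hxy hx h11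
    omega
  · have e : 11 * (z2 + 3 * y2 - 2 * -x2) = 2 * x + 27 * y + 31 * z := by linarith
    clear hr1 hr2 hr1' hr2' hN hc hd hc' hd' b1 b2 hB ex1 ey1 ez1 ex2 ey2 ez2 ea1 ec2 hz hxy hx h11
    omega

theorem pow11 {N : ℤ} (h11 : Sp11 N) (hB : Bad N) (k : ℕ) :
    ∀ x y z : ℤ, Nm N x y z → (x + 3 * y - 2 * z) % 7 = 0 →
      (11 : ℤ) ^ k ∣ 3 * x + 2 * y ∧ (11 : ℤ) ^ k ∣ z := by
  induction k with
  | zero => intro x y z _ _; simp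
  | succ k ih =>
    intro x y z h hs
    obtain ⟨X, Y, Z, X', Y', Z', ⟨hn1, hs1⟩, ⟨hn2, hs2⟩, e1, e2, e3, e4⟩ := step h11 hB h hs
    obtain ⟨⟨b1, hb1⟩, ⟨a1, ha1⟩⟩ := ih _ _ _ hn1 hs1
    obtain ⟨⟨b2, hb2⟩, ⟨a2, ha2⟩⟩ := ih _ _ _ hn2 hs2
    have A1 : (11 : ℤ) ^ (k + 1) * a1 = 3 * (3 * x + 2 * y) - 2 * z := by rw [← e1, ha1]; ring
    have B1 : (11 : ℤ) ^ (k + 1) * b1 = -2 * (3 * x + 2 * y) - 39 * z := by rw [← e2, hb1]; ring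
    have A2 : (11 : ℤ) ^ (k + 1) * a2 = -3 * (3 * x + 2 * y) - 2 * z := by rw [← e3, ha2]; ring
    have B2 : (11 : ℤ) ^ (k + 1) * b2 = -2 * (3 * x + 2 * y) + 39 * z := by rw [← e4, hb2]; ring
    have hs' : 2 * (3 * x + 2 * y) = (11 : ℤ) ^ (k + 1) * (a1 - a2 + b1 + b2) := by
      linear_combination -A1 + A2 - B1 - B2
    have hz : 2 * z = (11 : ℤ) ^ (k + 1) * (b2 - b1 + 19 * (a1 + a2)) := by
      linear_combination -B2 + B1 - 19 * A1 - 19 * A2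
    exact ⟨⟨a1 + (b2 - b1 + 19 * (a1 + a2)) - (a1 - a2 + b1 + b2), by
        linear_combination -A1 + hz - hs'⟩,
      ⟨b2 + (a1 - a2 + b1 + b2) - 19 * (b2 - b1 + 19 * (a1 + a2)), by
        linear_combination -B2 + hs' - 19 * hz⟩⟩

end CaseF

/-- The case `-N` a square modulo `7` and a nonzero square modulo `11`. -/
theorem caseF (h : ThreeStmt) {N : ℤ} (hN : 0 < N) (h8 : N % 8 = 3) (h5 : N % 5 = 2)
    (h7 : Sp7 N) (h11 : Sp11 N) : ¬ Bad N := by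
  intro hB
  obtain ⟨x0, y0, z0, hn0⟩ := exists_nm h hN h8 h5 hB
  obtain ⟨x, y, z, hn, hs⟩ := CaseF.start h7 hB hn0
  have h1 : z = 0 := eq_zero_of_pow_dvd (p := 11) (by norm_num)
    fun k => by exact_mod_cast (CaseF.pow11 h11 hB k x y z hn hs).2
  obtain ⟨-, -, ho⟩ := all_odd hn.1 h8
  omega

end Pool.Agent.Lib.MP_dc5ea1_nt
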