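import Mathlib

/-!
MP_dc5ea1_nt (sums of three generalized heptagonal numbers): definitions and the statements of the
modules (helper3).
-/

set_option autoImplicit false

namespace Pool.Agent.Lib.MP_dc5ea1_nt

/-- The generalized heptagonal number with index `r`. -/
def hep (r : ℤ) : ℤ := r * (5 * r - 3) / 2

/-- `n` is a sum of three generalized heptagonal numbers. -/
def IsSum (n : ℕ) : Prop := ∃ a b c : ℤ, (n : ℤ) = hep a + hep b + hep c

/-- In every representation of `N` as a sum of three squares some term is divisible by `5`. -/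
def Bad (N : ℤ) : Prop := ∀ x y z : ℤ, x ^ 2 + y ^ 2 + z ^ 2 = N → 5 ∣ x ∨ 5 ∣ y ∨ 5 ∣ z

/-- **Module Uni.** A positive definite ternary form with integral Gram matrix
`A = ((a,b,c),(b,d,e),(c,e,f))` of determinant `1` is a sum of three squares of integral linear forms;
we only need the value `f = Q (0,0,1)`.
PROOF. `B(v,w) = vᵀ A w`, `Q(v) = B(v,v)`.
(1) There is `X ∈ ℤ³` with `Q X = 1`: by Minkowski's theorem
(`MeasureTheory.exists_ne_zero_mem_lattice_of_measure_mul_two_pow_lt_measure`) for the ellipsoid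
`Q < 2`, of volume `(4/3) π 2^(3/2) > 8`: with `D = a d - b²`,
`Q(x,y,z) = (ax+by+cz)²/a + (D y + (ae-bc) z)²/(aD) + z²/D`, a triangular linear map `L` of
determinant `1` sends the ellipsoid to the ball of radius `√2` in `EuclideanSpace ℝ (Fin 3)`
(`EuclideanSpace.volume_ball_fin_three`). So there is a nonzero integral `X` with `Q X < 2`, and
`Q X > 0`. (Alternatively by Hermite reduction.)
(2) Let `w = (0,0,1)`, `t = B(w,X)`, `w' = w - t X`, so `B(w',X) = 0` and `f = Q w = t² + Q w'`. If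
`w' = 0` we are done. Let `h` be the gcd of the coordinates of the cross product `X × w'` and
`s₀ ∈ ℤ³` with `(X × w') ⬝ s₀ = det(X, w', s₀) = h` (Bezout); `s = s₀ - B(s₀,X) X`. The Gram
determinant of `(X, w', s)` is `det A * det(X,w',s)² = h²`, and it is `Q w' Q s - B(w',s)²` because
`X` is orthogonal to `w'`, `s` and `Q X = 1`. Moreover `(X × w') × (A X) = w' (X ⬝ A X) - X (w' ⬝ A X) =
w'`, so `h` divides `w' = h w''` (and `h ≠ 0`); hence `Q w'' Q s - B(w'',s)² = 1`.
(3) So `-1` is a square modulo `Q w'' > 0` and `Q w''` is a sum of two squares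
(`Nat.eq_sq_add_sq_of_isSquare_mod_neg_one`), so is `Q w' = h² Q w''`. -/
def UniStmt : Prop :=
  ∀ a b c d e f : ℤ, 0 < a → 0 < a * d - b ^ 2 →
    a * (d * f - e ^ 2) - b * (b * f - c * e) + c * (b * e - c * d) = 1 →
    ∃ x y z : ℤ, x ^ 2 + y ^ 2 + z ^ 2 = f

/-- **Module Three.** The three squares theorem for `N ≡ 3 mod 8`, from `UniStmt`.
PROOF (Dirichlet, see Nathanson, Additive number theory, the classical bases, 1.5).
`(N-1)/2 ≡ 1 mod 4` is odd and prime to `4N`. By Dirichlet's theorem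
(`Nat.forall_exists_prime_gt_and_eq_mod` or `Nat.setOf_prime_and_eq_mod_infinite`) there are
`j ≥ 1` and a prime `p = 4 N j + (N-1)/2`. Put `d = 8 j + 1`, so `2 p = d N - 1`, `p ≡ 1 mod 4`.
Jacobi symbols: `(-d/p) = (-1/p)(d/p) = (p/d)` (as `p ≡ 1`, `d ≡ 1 mod 4`), and
`(2/d) (p/d) = (2p/d) = (-1/d) = 1`, `(2/d) = 1` because `d ≡ 1 mod 8`; so `(-d/p) = 1`.
So there is `x` with `x² ≡ -d mod p`, and we may take `x` odd (replace `x` by `x + p`); then
`2 p ∣ x² + d`. Apply `UniStmt` with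
`a = (x² + d)/(2p)`, `b = x`, `c = 1`, `d = 2p`, `e = 0`, `f = N`:
`a d - b² = d > 0` and the determinant is `N d - 2 p = 1`. -/
def ThreeStmt : Prop := ∀ N : ℤ, 0 < N → N % 8 = 3 → ∃ x y z : ℤ, x ^ 2 + y ^ 2 + z ^ 2 = N

/-- **Module Square.** From `ThreeStmt`: if `N ≡ 3 mod 8`, `N ≡ 2 mod 5` and `p²` divides `N` for a
prime `p`, then some representation of `N` by three squares has no term divisible by `5`.
PROOF. `p` is odd and `≠ 5`; `N = p² N'`, `N' ≡ 3 mod 8`, `N' ≡ ±2 mod 5`.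
(1) There are odd `q₀ q₁ q₂ q₃` with `q₀² + q₁² + q₂² + q₃² = 4 p` and squares mod `5` (up to
order) among `{1,1,4,0}`, `{4,4,1,0}`, `{1,1,1,0}`, `{4,4,4,1}`, `{4,4,4,0}`, `{1,1,1,4}` (GOOD
patterns; not of the form `{s,0,0,0}`, `{s,s,0,0}`, `{s,s,s,s}`). Indeed put `P = 4p`; for `u` odd,
`u² < P`, `P - u² ≡ 3 mod 8` is a sum of three squares, all odd (`ThreeStmt`). If `P ≡ 2 mod 5` take
`u = 3`: the other three squares have sum `3`, pattern `{1,1,1}` or `{4,4,0}`; if `P ≡ 3` take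
`u = 1`: sum `2`, `{4,4,4}` or `{1,1,0}`; if `P ≡ 1` take `u = 1`, or `u = 9` if `25 ∣ P - 1`
(`p = 19`: use `76 = 5² + 7² + 1 + 1`): sum `0` and not divisible by `25`, so the pattern is
`{1,4,0}`; if `P ≡ 4` take `u = 3`, or `u = 7` if `25 ∣ P - 9`.
(2) The matrix of `v ↦ q v q̄`,
`M = ((q₀²+q₁²-q₂²-q₃², 2(q₁q₂-q₀q₃), 2(q₁q₃+q₀q₂)), (2(q₁q₂+q₀q₃), q₀²-q₁²+q₂²-q₃², 2(q₂q₃-q₀q₁)),
(2(q₁q₃-q₀q₂), 2(q₂q₃+q₀q₁), q₀²-q₁²-q₂²+q₃²))`, has all entries divisible by `4` and
`|M v|² = (4p)² |v|²`. So for every representation `v` of `N'`, `M v / 4` is a representation of `N`.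
(3) Let `v` be a representation of `N'` (`ThreeStmt`). If no coordinate of `v` is divisible by `5`, `p v` is
as wanted. Otherwise exactly one is, and the other two are `≡ ± t`; after a permutation and sign
changes `v ≡ t (1,1,0) mod 5`. For every good `q mod 5` one of the vectors
`(1,±1,0), (1,0,±1), (0,1,±1)` is sent by `M` to a vector without zero coordinates mod `5` (finite check:
decide over `ZMod 5`); permute the coordinates of `v` accordingly. -/
def SquareStmt : Prop :=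
  ∀ N : ℤ, 0 < N → N % 8 = 3 → N % 5 = 2 → ∀ p : ℕ, p.Prime → (p : ℤ) ^ 2 ∣ N → ¬ Bad N

end Pool.Agent.Lib.MP_dc5ea1_nt
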