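import Pool.Agent.Lib.MP_dc5ea1_nt.Basic

/-!
MP_dc5ea1_nt: the case `N ≡ 2 mod 3` (3-neighbours and descent), and the mod 3 lemma for `3 ∥ N` (helper3).
-/

set_option autoImplicit false

namespace Pool.Agent.Lib.MP_dc5ea1_nt

/-- The isometry `v ↦ v - (2 (v·u)/3) u` with `u = (1,1,1)` removes all factors `5`. -/
theorem no_sum {N x y z : ℤ} (hB : Bad N) (h : Nm N x y z) : (x + y + z) % 3 ≠ 0 := by
  intro h3
  obtain ⟨hN, hz, hxy, hx⟩ := h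
  obtain ⟨s, hs⟩ : (3 : ℤ) ∣ x + y + z := Int.dvd_of_emod_eq_zero h3
  refine hB.contra (x := x - 2 * s) (y := y - 2 * s) (z := z - 2 * s) ?_ (by omega) (by omega) (by omega)
  have hz' : z = 3 * s - x - y := by linarith
  rw [← hN, hz']
  ring

theorem Nm.neg_z {N x y z : ℤ} (h : Nm N x y z) : Nm N x y (-z) := by
  obtain ⟨hN, hz, hxy, hx⟩ := h
  exact ⟨by rw [← hN]; ring, by omega, hxy, hx⟩

theorem Nm.swap {N x y z : ℤ} (h : Nm N x y z) : Nm N y x z := by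
  obtain ⟨hN, hz, hxy, hx⟩ := h
  exact ⟨by rw [← hN]; ring, hz, by omega, by omega⟩

theorem no_diff {N x y z : ℤ} (hB : Bad N) (h : Nm N x y z) : (x + y - z) % 3 ≠ 0 := by
  have := no_sum hB h.neg_z
  rwa [← sub_eq_add_neg] at this

/-- If `N ≡ 2 mod 3` then `3 ∣ z` and `3 ∣ x - y`. -/
theorem split3_base {N x y z : ℤ} (h3 : N % 3 = 2) (hB : Bad N) (h : Nm N x y z) :
    z % 3 = 0 ∧ (x - y) % 3 = 0 := by
  have h1 := no_sum hB h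
  have h2 := no_diff hB h
  have hN := h.1
  have hx := sq_mod_three x
  have hy := sq_mod_three y
  have hz := sq_mod_three z
  omega

theorem split3_step {N x y z : ℤ} (h3 : N % 3 = 2) (hB : Bad N) (h : Nm N x y z) :
    ∃ x1 y1 z1 x2 y2 z2 : ℤ, Nm N x1 y1 z1 ∧ Nm N x2 y2 z2 ∧ 3 * (x1 - y1) = -(x - y) - 4 * z ∧
      3 * z1 = z - 2 * (x - y) ∧ 3 * (x2 - y2) = -(x - y) + 4 * z ∧ 3 * z2 = z + 2 * (x - y) := by
  obtain ⟨hb1, hb2⟩ := split3_base h3 hB h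
  obtain ⟨hN, hz, hxy, hx⟩ := h
  obtain ⟨p, hp⟩ : (3 : ℤ) ∣ x - y + z := Int.dvd_of_emod_eq_zero (by omega)
  obtain ⟨q, hq⟩ : (3 : ℤ) ∣ x - y - z := Int.dvd_of_emod_eq_zero (by omega)
  refine ⟨x - 2 * p, y + 2 * p, z - 2 * p, x - 2 * q, y + 2 * q, z + 2 * q, ⟨?_, ?_, ?_, ?_⟩,
    ⟨?_, ?_, ?_, ?_⟩, ?_, ?_, ?_, ?_⟩
  · have hz' : z = 3 * p - x + y := by linarith
    rw [← hN, hz']; ring
  · omega
  · omega
  · omega
  · have hz' : z = x - y - 3 * q := by linarith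
    rw [← hN, hz']; ring
  all_goals omega

theorem split3_pow {N : ℤ} (h3 : N % 3 = 2) (hB : Bad N) (k : ℕ) :
    ∀ x y z : ℤ, Nm N x y z → (3 : ℤ) ^ k ∣ x - y ∧ (3 : ℤ) ^ k ∣ z := by
  induction k with
  | zero => intro x y z _; simp
  | succ k ih =>
    intro x y z h
    obtain ⟨x1, y1, z1, x2, y2, z2, hn1, hn2, e1, e2, e3, e4⟩ := split3_step h3 hB h
    obtain ⟨⟨a1, ha1⟩, ⟨b1, hb1⟩⟩ := ih _ _ _ hn1
    obtain ⟨⟨a2, ha2⟩, ⟨b2, hb2⟩⟩ := ih _ _ _ hn2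
    -- 3^(k+1) divides -d - 4z, z - 2d, -d + 4z, z + 2d
    have A1 : (3 : ℤ) ^ (k + 1) * a1 = -(x - y) - 4 * z := by rw [← e1, ha1]; ring
    have B1 : (3 : ℤ) ^ (k + 1) * b1 = z - 2 * (x - y) := by rw [← e2, hb1]; ring
    have A2 : (3 : ℤ) ^ (k + 1) * a2 = -(x - y) + 4 * z := by rw [← e3, ha2]; ring
    have B2 : (3 : ℤ) ^ (k + 1) * b2 = z + 2 * (x - y) := by rw [← e4, hb2]; ring
    exact ⟨⟨-(a1 + 4 * b1) + 4 * (a1 + a2), by linear_combination (-3 : ℤ) * A1 + 4 * B1 - 4 * A2⟩,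
      ⟨(b1 - 2 * a1) - 4 * (b1 + b2), by linear_combination (3 : ℤ) * B1 + 2 * A1 + 4 * B2⟩⟩

/-- The case `N ≡ 2 mod 3`. -/
theorem splitThree (h : ThreeStmt) {N : ℤ} (hN : 0 < N) (h8 : N % 8 = 3) (h5 : N % 5 = 2)
    (h3 : N % 3 = 2) : ¬ Bad N := by
  intro hB
  obtain ⟨x, y, z, hn⟩ := exists_nm h hN h8 h5 hB
  have h1 : x - y = 0 := eq_zero_of_pow_dvd (p := 3) (by norm_num)
    fun k => by exact_mod_cast (split3_pow h3 hB k x y z hn).1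
  have h2 : z = 0 := eq_zero_of_pow_dvd (p := 3) (by norm_num)
    fun k => by exact_mod_cast (split3_pow h3 hB k x y z hn).2
  obtain ⟨-, -, ho⟩ := all_odd hn.1 h8
  omega

/-- Modulo `3` if `3 ∣ N` but `9 ∤ N`: no coordinate is divisible by `3`, and `3 ∣ x + y`. -/
theorem mod3 {N x y z : ℤ} (h3 : N % 3 = 0) (h9 : N % 9 ≠ 0) (hB : Bad N) (h : Nm N x y z) :
    x % 3 ≠ 0 ∧ y % 3 ≠ 0 ∧ z % 3 ≠ 0 ∧ (x + y) % 3 = 0 := by
  have h1 := no_sum hB h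
  have h2 := no_diff hB h
  have hN := h.1
  have hx := sq_mod_three x
  have hy := sq_mod_three y
  have hz := sq_mod_three z
  have key : ¬ (x % 3 = 0 ∧ y % 3 = 0 ∧ z % 3 = 0) := by
    rintro ⟨h4, h5, h6⟩
    obtain ⟨a, rfl⟩ := Int.dvd_of_emod_eq_zero h4
    obtain ⟨b, rfl⟩ := Int.dvd_of_emod_eq_zero h5
    obtain ⟨c, rfl⟩ := Int.dvd_of_emod_eq_zero h6
    apply h9
    rw [← hN, show (3 * a) ^ 2 + (3 * b) ^ 2 + (3 * c) ^ 2 = 9 * (a ^ 2 + b ^ 2 + c ^ 2) by ring]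
    exact Int.mul_emod_right _ _
  omega

end Pool.Agent.Lib.MP_dc5ea1_nt
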