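import Pool.Agent.Lib.MP_dc5ea1_nt.Spec

/-!
MP_dc5ea1_nt, module Square (see the docstring of `SquareStmt`).
-/

set_option autoImplicit false

namespace Pool.Agent.Lib.MP_dc5ea1_nt.Square

open Pool.Agent.Lib.MP_dc5ea1_nt

/-- first coordinate of `q v q̄` -/
def R1 {R : Type} [CommRing R] (q0 q1 q2 q3 x y z : R) : R :=
  (q0 * q0 + q1 * q1 - q2 * q2 - q3 * q3) * x + 2 * (q1 * q2 - q0 * q3) * y
    + 2 * (q1 * q3 + q0 * q2) * z

/-- second coordinate of `q v q̄` -/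
def R2 {R : Type} [CommRing R] (q0 q1 q2 q3 x y z : R) : R :=
  2 * (q1 * q2 + q0 * q3) * x + (q0 * q0 - q1 * q1 + q2 * q2 - q3 * q3) * y
    + 2 * (q2 * q3 - q0 * q1) * z

/-- third coordinate of `q v q̄` -/
def R3 {R : Type} [CommRing R] (q0 q1 q2 q3 x y z : R) : R :=
  2 * (q1 * q3 - q0 * q2) * x + 2 * (q2 * q3 + q0 * q1) * y
    + (q0 * q0 - q1 * q1 - q2 * q2 + q3 * q3) * z

theorem norm_R (q0 q1 q2 q3 x y z : ℤ) :
    R1 q0 q1 q2 q3 x y z ^ 2 + R2 q0 q1 q2 q3 x y z ^ 2 + R3 q0 q1 q2 q3 x y z ^ 2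
      = (q0 ^ 2 + q1 ^ 2 + q2 ^ 2 + q3 ^ 2) ^ 2 * (x ^ 2 + y ^ 2 + z ^ 2) := by
  unfold R1 R2 R3
  ring

/-- all three coordinates of the image of `(x,y,z)` are nonzero -/
def nz (q0 q1 q2 q3 x y z : ZMod 5) : Prop :=
  R1 q0 q1 q2 q3 x y z ≠ 0 ∧ R2 q0 q1 q2 q3 x y z ≠ 0 ∧ R3 q0 q1 q2 q3 x y z ≠ 0

instance (q0 q1 q2 q3 x y z : ZMod 5) : Decidable (nz q0 q1 q2 q3 x y z) := by
  unfold nz
  infer_instance

/-- the condition on the quaternion modulo 5 -/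
def cond (q0 q1 q2 q3 : ZMod 5) : Prop :=
  (q0 * q0 = 4 ∧ q0 * q0 + q1 * q1 + q2 * q2 + q3 * q3 = 2) ∨
  (q0 * q0 = 1 ∧ q0 * q0 + q1 * q1 + q2 * q2 + q3 * q3 = 3) ∨
  (((q0 * q0 = 1 ∧ q0 * q0 + q1 * q1 + q2 * q2 + q3 * q3 = 1) ∨
    (q0 * q0 = 4 ∧ q0 * q0 + q1 * q1 + q2 * q2 + q3 * q3 = 4)) ∧
    ¬ (q1 = 0 ∧ q2 = 0 ∧ q3 = 0))

instance (q0 q1 q2 q3 : ZMod 5) : Decidable (cond q0 q1 q2 q3) := by
  unfold cond
  infer_instance

theorem finite_check : ∀ q0 q1 q2 q3 : ZMod 5, cond q0 q1 q2 q3 →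
    (nz q0 q1 q2 q3 1 1 0 ∨ nz q0 q1 q2 q3 1 (-1) 0 ∨ nz q0 q1 q2 q3 1 0 1 ∨
      nz q0 q1 q2 q3 1 0 (-1) ∨ nz q0 q1 q2 q3 0 1 1 ∨ nz q0 q1 q2 q3 0 1 (-1)) := by
  decide +kernel

theorem nz_smul {q0 q1 q2 q3 x y z t : ZMod 5} (ht : t ≠ 0) (h : nz q0 q1 q2 q3 x y z) :
    nz q0 q1 q2 q3 (t * x) (t * y) (t * z) := by
  have : Fact (Nat.Prime 5) := ⟨by norm_num⟩
  obtain ⟨h1, h2, h3⟩ := h
  refine ⟨?_, ?_, ?_⟩
  · have e : R1 q0 q1 q2 q3 (t * x) (t * y) (t * z) = t * R1 q0 q1 q2 q3 x y z := by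
      unfold R1; ring
    rw [e]; exact mul_ne_zero ht h1
  · have e : R2 q0 q1 q2 q3 (t * x) (t * y) (t * z) = t * R2 q0 q1 q2 q3 x y z := by
      unfold R2; ring
    rw [e]; exact mul_ne_zero ht h2
  · have e : R3 q0 q1 q2 q3 (t * x) (t * y) (t * z) = t * R3 q0 q1 q2 q3 x y z := by
      unfold R3; ring
    rw [e]; exact mul_ne_zero ht h3

theorem dvd4 {q0 q1 q2 q3 : ℤ} (h0 : Odd q0) (h1 : Odd q1) (h2 : Odd q2) (h3 : Odd q3)
    (x y z : ℤ) : 4 ∣ R1 q0 q1 q2 q3 x y z ∧ 4 ∣ R2 q0 q1 q2 q3 x y z ∧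
      4 ∣ R3 q0 q1 q2 q3 x y z := by
  obtain ⟨k0, rfl⟩ := h0
  obtain ⟨k1, rfl⟩ := h1
  obtain ⟨k2, rfl⟩ := h2
  obtain ⟨k3, rfl⟩ := h3
  refine ⟨⟨(k0 ^ 2 + k0 + k1 ^ 2 + k1 - k2 ^ 2 - k2 - k3 ^ 2 - k3) * x
      + (2 * k1 * k2 + k1 + k2 - 2 * k0 * k3 - k0 - k3) * y
      + (2 * k1 * k3 + k1 + k3 + 2 * k0 * k2 + k0 + k2 + 1) * z, ?_⟩,
    ⟨(2 * k1 * k2 + k1 + k2 + 2 * k0 * k3 + k0 + k3 + 1) * x
      + (k0 ^ 2 + k0 - k1 ^ 2 - k1 + k2 ^ 2 + k2 - k3 ^ 2 - k3) * y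
      + (2 * k2 * k3 + k2 + k3 - 2 * k0 * k1 - k0 - k1) * z, ?_⟩,
    ⟨(2 * k1 * k3 + k1 + k3 - 2 * k0 * k2 - k0 - k2) * x
      + (2 * k2 * k3 + k2 + k3 + 2 * k0 * k1 + k0 + k1 + 1) * y
      + (k0 ^ 2 + k0 - k1 ^ 2 - k1 - k2 ^ 2 - k2 + k3 ^ 2 + k3) * z, ?_⟩⟩
  · unfold R1; ring
  · unfold R2; ring
  · unfold R3; ring

/-- the rotated representation -/
theorem rotate {q0 q1 q2 q3 p N' : ℤ} (h0 : Odd q0) (h1 : Odd q1) (h2 : Odd q2) (h3 : Odd q3)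
    (hq : q0 ^ 2 + q1 ^ 2 + q2 ^ 2 + q3 ^ 2 = 4 * p) {x y z : ℤ}
    (hv : x ^ 2 + y ^ 2 + z ^ 2 = N') (hnz : nz q0 q1 q2 q3 x y z) : ¬ Bad (p ^ 2 * N') := by
  intro hbad
  obtain ⟨⟨w1, e1⟩, ⟨w2, e2⟩, ⟨w3, e3⟩⟩ := dvd4 h0 h1 h2 h3 x y z
  have hn := norm_R q0 q1 q2 q3 x y z
  rw [hq, hv, e1, e2, e3] at hn
  have hw : w1 ^ 2 + w2 ^ 2 + w3 ^ 2 = p ^ 2 * N' := by linarith
  obtain ⟨n1, n2, n3⟩ := hnz
  have c1 : ((R1 q0 q1 q2 q3 x y z : ℤ) : ZMod 5) = R1 (q0 : ZMod 5) q1 q2 q3 x y z := by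
    unfold R1; push_cast; ring
  have c2 : ((R2 q0 q1 q2 q3 x y z : ℤ) : ZMod 5) = R2 (q0 : ZMod 5) q1 q2 q3 x y z := by
    unfold R2; push_cast; ring
  have c3 : ((R3 q0 q1 q2 q3 x y z : ℤ) : ZMod 5) = R3 (q0 : ZMod 5) q1 q2 q3 x y z := by
    unfold R3; push_cast; ring
  rw [← c1] at n1
  rw [← c2] at n2
  rw [← c3] at n3
  have key : ∀ w r : ℤ, r = 4 * w → (r : ZMod 5) ≠ 0 → ¬ (5 : ℤ) ∣ w := by
    intro w r hr hne hdvd
    apply hne
    rw [ZMod.intCast_zmod_eq_zero_iff_dvd r 5]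
    rw [hr]
    exact Dvd.dvd.mul_left (by exact_mod_cast hdvd) 4
  rcases hbad w1 w2 w3 hw with h | h | h
  · exact key w1 _ e1 n1 h
  · exact key w2 _ e2 n2 h
  · exact key w3 _ e3 n3 h

theorem odd_of_three {a b c n : ℤ} (hn : n % 8 = 3) (h : a ^ 2 + b ^ 2 + c ^ 2 = n) :
    Odd a ∧ Odd b ∧ Odd c := by
  have key : ∀ a : ℤ, (a % 2 = 0 → a ^ 2 % 8 = 0 ∨ a ^ 2 % 8 = 4) ∧ (a % 2 = 1 → a ^ 2 % 8 = 1) := by
    intro a
    constructor
    · intro ha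
      obtain ⟨k, hk⟩ : ∃ k, a = 2 * k := ⟨a / 2, by omega⟩
      subst hk
      rcases Int.even_or_odd k with ⟨j, hj⟩ | ⟨j, hj⟩
      · left; subst hj; ring_nf; omega
      · right; subst hj; ring_nf; omega
    · intro ha
      obtain ⟨k, hk⟩ : ∃ k, a = 2 * k + 1 := ⟨a / 2, by omega⟩
      subst hk
      have : (2 * k + 1) ^ 2 = 4 * (k * (k + 1)) + 1 := by ring
      rw [this]
      have h2 : Even (k * (k + 1)) := Int.even_mul_succ_self k
      obtain ⟨j, hj⟩ := h2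
      rw [hj]
      omega
  have ka := key a
  have kb := key b
  have kc := key c
  rw [Int.odd_iff, Int.odd_iff, Int.odd_iff]
  rcases Int.emod_two_eq_zero_or_one a with ha | ha <;>
  rcases Int.emod_two_eq_zero_or_one b with hb | hb <;>
  rcases Int.emod_two_eq_zero_or_one c with hc | hc <;>
  simp only [ha, hb, hc, true_implies] at ka kb kc <;> omega

/-- existence of a good quaternion of norm `4 p` -/
theorem exists_q (h : ThreeStmt) {p : ℕ} (hp : p.Prime) (h2 : p ≠ 2) (h5 : p ≠ 5) :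
    ∃ q0 q1 q2 q3 : ℤ, Odd q0 ∧ Odd q1 ∧ Odd q2 ∧ Odd q3 ∧
      q0 ^ 2 + q1 ^ 2 + q2 ^ 2 + q3 ^ 2 = 4 * p ∧ cond q0 q1 q2 q3 := by
  have hodd : p % 2 = 1 := by
    rcases hp.eq_two_or_odd with h | h
    · exact absurd h h2
    · exact h
  have h5' : ¬ 5 ∣ p := by
    intro hd
    exact h5 ((Nat.prime_dvd_prime_iff_eq (by norm_num) hp).1 hd).symm
  have hp2 := hp.two_le
  have hp3 : 3 ≤ p := by omega
  -- the general step
  have step : ∀ u : ℤ, Odd u → u ^ 2 < 4 * p → u ^ 2 % 8 = 1 →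
      ∃ q1 q2 q3 : ℤ, Odd q1 ∧ Odd q2 ∧ Odd q3 ∧ u ^ 2 + q1 ^ 2 + q2 ^ 2 + q3 ^ 2 = 4 * p := by
    intro u hu hlt hu8
    have hm : (4 * (p : ℤ) - u ^ 2) % 8 = 3 := by omega
    obtain ⟨a, b, c, habc⟩ := h (4 * p - u ^ 2) (by linarith) hm
    obtain ⟨ha, hb, hc⟩ := odd_of_three hm habc
    exact ⟨a, b, c, ha, hb, hc, by linarith⟩
  -- the sum of the squares modulo 5
  have cast_sum : ∀ (q0 q1 q2 q3 : ℤ), q0 ^ 2 + q1 ^ 2 + q2 ^ 2 + q3 ^ 2 = 4 * p → ∀ r : ℕ,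
      (4 * p) % 5 = r → (q0 : ZMod 5) * q0 + q1 * q1 + q2 * q2 + q3 * q3 = r := by
    intro q0 q1 q2 q3 hq r hr
    have e1 : ((q0 ^ 2 + q1 ^ 2 + q2 ^ 2 + q3 ^ 2 : ℤ) : ZMod 5) = ((4 * p : ℕ) : ZMod 5) := by
      rw [hq]
      push_cast
      rfl
    have e2 : ((4 * p : ℕ) : ZMod 5) = (r : ZMod 5) := by
      rw [← hr]
      exact (ZMod.natCast_mod (4 * p) 5).symm
    rw [e2] at e1
    push_cast at e1
    rw [← e1]
    ring
  -- not all of the three are divisible by 5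
  have notall : ∀ (q1 q2 q3 n : ℤ), q1 ^ 2 + q2 ^ 2 + q3 ^ 2 = n → ¬ (25 : ℤ) ∣ n →
      ¬ ((q1 : ZMod 5) = 0 ∧ (q2 : ZMod 5) = 0 ∧ (q3 : ZMod 5) = 0) := by
    rintro q1 q2 q3 n hn h25 ⟨z1, z2, z3⟩
    apply h25
    rw [ZMod.intCast_zmod_eq_zero_iff_dvd _ 5] at z1 z2 z3
    obtain ⟨a, ha⟩ := z1
    obtain ⟨b, hb⟩ := z2
    obtain ⟨c, hc⟩ := z3
    rw [← hn, ha, hb, hc]
    exact ⟨a ^ 2 + b ^ 2 + c ^ 2, by push_cast; ring⟩
  have hmod : (4 * p) % 5 = 1 ∨ (4 * p) % 5 = 2 ∨ (4 * p) % 5 = 3 ∨ (4 * p) % 5 = 4 := by omega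
  rcases hmod with hm | hm | hm | hm
  · -- P = 1
    by_cases h25 : (25 : ℤ) ∣ 4 * p - 1
    · by_cases hp19 : p = 19
      · subst hp19
        refine ⟨1, 5, 7, 1, by decide, by decide, by decide, by decide, by norm_num, ?_⟩
        right; right
        refine ⟨Or.inl ⟨by decide, by decide⟩, by decide⟩
      · have hlt : (9 : ℤ) ^ 2 < 4 * p := by omega
        obtain ⟨q1, q2, q3, o1, o2, o3, hs⟩ := step 9 (by decide) hlt (by norm_num)
        refine ⟨9, q1, q2, q3, by decide, o1, o2, o3, hs, ?_⟩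
        have hc := cast_sum _ _ _ _ hs 1 hm
        right; right
        refine ⟨Or.inl ⟨by decide, by simpa using hc⟩,
          notall q1 q2 q3 (4 * p - 81) (by linarith) (by omega)⟩
    · have hlt : (1 : ℤ) ^ 2 < 4 * p := by omega
      obtain ⟨q1, q2, q3, o1, o2, o3, hs⟩ := step 1 (by decide) hlt (by norm_num)
      refine ⟨1, q1, q2, q3, by decide, o1, o2, o3, hs, ?_⟩
      have hc := cast_sum _ _ _ _ hs 1 hm
      right; right
      refine ⟨Or.inl ⟨by decide, by simpa using hc⟩,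
        notall q1 q2 q3 (4 * p - 1) (by linarith) h25⟩
  · -- P = 2
    have hlt : (3 : ℤ) ^ 2 < 4 * p := by omega
    obtain ⟨q1, q2, q3, o1, o2, o3, hs⟩ := step 3 (by decide) hlt (by norm_num)
    refine ⟨3, q1, q2, q3, by decide, o1, o2, o3, hs, ?_⟩
    have hc := cast_sum _ _ _ _ hs 2 hm
    left
    exact ⟨by decide, by simpa using hc⟩
  · -- P = 3
    have hlt : (1 : ℤ) ^ 2 < 4 * p := by omega
    obtain ⟨q1, q2, q3, o1, o2, o3, hs⟩ := step 1 (by decide) hlt (by norm_num)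
    refine ⟨1, q1, q2, q3, by decide, o1, o2, o3, hs, ?_⟩
    have hc := cast_sum _ _ _ _ hs 3 hm
    right; left
    exact ⟨by decide, by simpa using hc⟩
  · -- P = 4
    by_cases h25 : (25 : ℤ) ∣ 4 * p - 9
    · have hlt : (7 : ℤ) ^ 2 < 4 * p := by omega
      obtain ⟨q1, q2, q3, o1, o2, o3, hs⟩ := step 7 (by decide) hlt (by norm_num)
      refine ⟨7, q1, q2, q3, by decide, o1, o2, o3, hs, ?_⟩
      have hc := cast_sum _ _ _ _ hs 4 hm
      right; right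
      refine ⟨Or.inr ⟨by decide, by simpa using hc⟩,
        notall q1 q2 q3 (4 * p - 49) (by linarith) (by omega)⟩
    · have hlt : (3 : ℤ) ^ 2 < 4 * p := by omega
      obtain ⟨q1, q2, q3, o1, o2, o3, hs⟩ := step 3 (by decide) hlt (by norm_num)
      refine ⟨3, q1, q2, q3, by decide, o1, o2, o3, hs, ?_⟩
      have hc := cast_sum _ _ _ _ hs 4 hm
      right; right
      refine ⟨Or.inr ⟨by decide, by simpa using hc⟩,
        notall q1 q2 q3 (4 * p - 9) (by linarith) h25⟩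

/-- in a representation with a term divisible by 5, the other two are equal up to sign modulo 5 -/
theorem residues : ∀ x y z : ZMod 5, (x * x + y * y + z * z = 2 ∨ x * x + y * y + z * z = 3) →
    z = 0 → x ≠ 0 ∧ (y = x ∨ y = -x) := by
  decide +kernel

theorem square (h : ThreeStmt) : SquareStmt := by
  intro N hN hN8 hN5 p hp hdvd
  obtain ⟨N', hN'⟩ := hdvd
  have h2 : p ≠ 2 := by
    rintro rfl
    push_cast at hN'
    omega
  have h5 : p ≠ 5 := by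
    rintro rfl
    push_cast at hN'
    omega
  have hpodd : (p : ℤ) % 2 = 1 := by
    rcases hp.eq_two_or_odd with h | h
    · exact absurd h h2
    · omega
  have hp5 : ¬ (5 : ℤ) ∣ p := by
    intro hd
    have : 5 ∣ p := by exact_mod_cast hd
    exact h5 ((Nat.prime_dvd_prime_iff_eq (by norm_num) hp).1 this).symm
  have hp0 : (0 : ℤ) < p := by exact_mod_cast hp.pos
  have hpp : (p : ℤ) ^ 2 % 8 = 1 := by
    obtain ⟨k, hk⟩ : ∃ k : ℤ, (p : ℤ) = 2 * k + 1 := ⟨p / 2, by omega⟩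
    rw [hk]
    have : (2 * k + 1) ^ 2 = 4 * (k * (k + 1)) + 1 := by ring
    rw [this]
    obtain ⟨j, hj⟩ := Int.even_mul_succ_self k
    rw [hj]
    omega
  have hN'0 : 0 < N' := by
    by_contra hcon
    push Not at hcon
    have : (p : ℤ) ^ 2 * N' ≤ 0 := mul_nonpos_of_nonneg_of_nonpos (by positivity) hcon
    omega
  have hN'8 : N' % 8 = 3 := by
    have : N % 8 = ((p : ℤ) ^ 2 % 8) * (N' % 8) % 8 := by rw [hN', Int.mul_emod]
    rw [hpp] at this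
    omega
  obtain ⟨x, y, z, hv⟩ := h N' hN'0 hN'8
  obtain ⟨q0, q1, q2, q3, o0, o1, o2, o3, hq, hcond⟩ := exists_q h hp h2 h5
  have hp2 : ((p : ℤ) : ZMod 5) ≠ 0 := by
    rw [Ne, ZMod.intCast_zmod_eq_zero_iff_dvd _ 5]
    exact_mod_cast hp5
  have hsum : ∀ x y z : ℤ, x ^ 2 + y ^ 2 + z ^ 2 = N' →
      ((x : ZMod 5) * x + y * y + z * z = 2 ∨ (x : ZMod 5) * x + y * y + z * z = 3) := by
    intro x y z hv
    have e1 : ((x : ZMod 5) * x + y * y + z * z) = (N' : ZMod 5) := by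
      rw [← hv]
      push_cast
      ring
    have e2 : (N : ZMod 5) = 2 := by
      have : ((N % 5 : ℤ) : ZMod 5) = (N : ZMod 5) := ZMod.intCast_mod N 5
      rw [← this, hN5]
      rfl
    have e3 : (N : ZMod 5) = ((p : ℤ) : ZMod 5) * ((p : ℤ) : ZMod 5) * (N' : ZMod 5) := by
      rw [hN']
      push_cast
      ring
    rw [e2] at e3
    rw [e1]
    have fin : ∀ a n : ZMod 5, a ≠ 0 → 2 = a * a * n → n = 2 ∨ n = 3 := by decide +kernel
    exact fin _ _ hp2 e3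
  -- a representation with the last term divisible by 5
  have main : ∀ x y z : ℤ, x ^ 2 + y ^ 2 + z ^ 2 = N' → (z : ZMod 5) = 0 → ¬ Bad N := by
    intro x y z hv hz
    obtain ⟨hx, hxy⟩ := residues x y z (hsum x y z hv) hz
    -- choose the sign of y
    obtain ⟨b, hb1, hb2⟩ : ∃ b : ℤ, b ^ 2 = y ^ 2 ∧ (b : ZMod 5) = x := by
      rcases hxy with e | e
      · exact ⟨y, rfl, e⟩
      · exact ⟨-y, by ring, by push_cast; rw [e, neg_neg]⟩
    have hv' : x ^ 2 + b ^ 2 + z ^ 2 = N' := by rw [hb1]; exact hv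
    rw [hN']
    have fc := finite_check q0 q1 q2 q3 hcond
    rcases fc with f | f | f | f | f | f
    · have g := nz_smul hx f
      refine rotate o0 o1 o2 o3 hq (x := x) (y := b) (z := z) hv' ?_
      rw [hb2, hz]
      simpa using g
    · have g := nz_smul hx f
      refine rotate o0 o1 o2 o3 hq (x := x) (y := -b) (z := z) (by linarith [neg_sq b]) ?_
      push_cast
      rw [hb2, hz]
      simpa using g
    · have g := nz_smul hx f
      refine rotate o0 o1 o2 o3 hq (x := x) (y := z) (z := b) (by linarith) ?_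
      rw [hb2, hz]
      simpa using g
    · have g := nz_smul hx f
      refine rotate o0 o1 o2 o3 hq (x := x) (y := z) (z := -b) (by linarith [neg_sq b]) ?_
      push_cast
      rw [hb2, hz]
      simpa using g
    · have g := nz_smul hx f
      refine rotate o0 o1 o2 o3 hq (x := z) (y := x) (z := b) (by linarith) ?_
      rw [hb2, hz]
      simpa using g
    · have g := nz_smul hx f
      refine rotate o0 o1 o2 o3 hq (x := z) (y := x) (z := -b) (by linarith [neg_sq b]) ?_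
      push_cast
      rw [hb2, hz]
      simpa using g
  by_cases hz : (z : ZMod 5) = 0
  · exact main x y z hv hz
  by_cases hy : (y : ZMod 5) = 0
  · exact main x z y (by linarith) hy
  by_cases hx : (x : ZMod 5) = 0
  · exact main y z x (by linarith) hx
  -- no term divisible by 5
  intro hbad
  have hrep : ((p : ℤ) * x) ^ 2 + (p * y) ^ 2 + (p * z) ^ 2 = N := by
    rw [hN', ← hv]
    ring
  have key : ∀ w : ℤ, (w : ZMod 5) ≠ 0 → ¬ (5 : ℤ) ∣ p * w := by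
    intro w hw hd
    have h5p : Prime (5 : ℤ) := by norm_num
    rcases h5p.dvd_or_dvd hd with h | h
    · exact hp5 h
    · apply hw
      rw [ZMod.intCast_zmod_eq_zero_iff_dvd _ 5]
      exact_mod_cast h
  rcases hbad _ _ _ hrep with h | h | h
  · exact key x hx h
  · exact key y hy h
  · exact key z hz h

end Pool.Agent.Lib.MP_dc5ea1_nt.Square
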