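import Pool.Agent.Lib.MP_dc5ea1_nt.Spec

/-!
MP_dc5ea1_nt, module Three: the three squares theorem for `N ≡ 3 mod 8`, from `UniStmt`
(helper72). See the docstring of `ThreeStmt`.
-/

set_option autoImplicit false

namespace Pool.Agent.Lib.MP_dc5ea1_nt.Three

open scoped NumberTheorySymbols

/-- The Dirichlet prime: for `N = 8 m + 3` there are `j` and a prime `p` with
`2 p + 1 = (8 j + 1) N` and `p ≡ 1 mod 4`. -/
theorem exists_prime (m : ℕ) :
    ∃ j p : ℕ, p.Prime ∧ 2 * p + 1 = (8 * j + 1) * (8 * m + 3) ∧ p % 4 = 1 := by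
  set q : ℕ := 4 * (8 * m + 3) with hq
  have : NeZero q := ⟨by omega⟩
  have hco : Nat.Coprime (4 * m + 1) q := by
    have h1 : Nat.Coprime (4 * m + 1) 4 := by
      unfold Nat.Coprime
      rw [Nat.gcd_comm, Nat.gcd_rec, show (4 * m + 1) % 4 = 1 by omega]
      norm_num
    have h2 : Nat.Coprime (4 * m + 1) (8 * m + 3) := by
      have h3 : Nat.gcd (4 * m + 1) (8 * m + 3) ∣ 1 := by
        have ha := Nat.gcd_dvd_left (4 * m + 1) (8 * m + 3)
        have hb := Nat.gcd_dvd_right (4 * m + 1) (8 * m + 3)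
        have hc := Dvd.dvd.mul_left ha 2
        have hd : 8 * m + 3 - 2 * (4 * m + 1) = 1 := by omega
        have he := Nat.dvd_sub hb hc
        rw [hd] at he
        exact he
      exact Nat.eq_one_of_dvd_one h3
    exact Nat.Coprime.mul_right h1 h2
  have hu : IsUnit (((4 * m + 1 : ℕ) : ZMod q)) := (ZMod.isUnit_iff_coprime _ _).2 hco
  obtain ⟨p, hpq, hp, hpm⟩ := Nat.forall_exists_prime_gt_and_eq_mod hu q
  have hmod : p ≡ 4 * m + 1 [MOD q] := (ZMod.natCast_eq_natCast_iff _ _ _).1 hpm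
  have hdvd : q ∣ p - (4 * m + 1) := (Nat.modEq_iff_dvd' (by omega)).1 hmod.symm
  obtain ⟨j, hj⟩ := hdvd
  have hpe : p = q * j + (4 * m + 1) := by omega
  refine ⟨j, p, hp, ?_, ?_⟩
  · rw [hpe, hq]
    ring
  · rw [hpe, hq]
    have : 4 * (8 * m + 3) * j + (4 * m + 1) = 4 * ((8 * m + 3) * j + m) + 1 := by ring
    rw [this]
    omega

/-- `-(8j+1)` is a square modulo `p`. -/
theorem isSquare_neg (m j p : ℕ) (hp : p.Prime) (h : 2 * p + 1 = (8 * j + 1) * (8 * m + 3))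
    (hp4 : p % 4 = 1) : IsSquare (((-((8 * j + 1 : ℕ) : ℤ)) : ℤ) : ZMod p) := by
  have : Fact p.Prime := ⟨hp⟩
  set d : ℕ := 8 * j + 1 with hd
  have hdo : Odd d := ⟨4 * j, by omega⟩
  have hpo : Odd p := Nat.odd_iff.2 (by omega)
  have hd4 : d % 4 = 1 := by omega
  apply ZMod.isSquare_of_jacobiSym_eq_one
  have e1 : J(-1 | d) = 1 := by
    rw [jacobiSym.at_neg_one hdo]
    exact ZMod.χ₄_nat_one_mod_four hd4
  have e2 : J(2 | d) = 1 := by
    rw [jacobiSym.at_two hdo, ZMod.χ₈_nat_eq_if_mod_eight]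
    have h2 : d % 2 ≠ 0 := by omega
    have h8 : d % 8 = 1 := by omega
    simp [h2, h8]
  have e3 : J((2 * (p : ℤ)) | d) = J(-1 | d) := by
    apply jacobiSym.mod_left'
    have : (2 * (p : ℤ)) = -1 + (d : ℤ) * ((8 * m + 3 : ℕ) : ℤ) := by
      have h' : (2 * (p : ℤ)) + 1 = (d : ℤ) * ((8 * m + 3 : ℕ) : ℤ) := by exact_mod_cast h
      linarith
    rw [this]
    exact Int.add_mul_emod_self_left _ _ _
  have e4 : J((p : ℤ) | d) = 1 := by
    rw [jacobiSym.mul_left, e2, one_mul] at e3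
    rw [e3, e1]
  have e5 : J((d : ℤ) | p) = 1 := by
    rw [jacobiSym.quadratic_reciprocity_one_mod_four hd4 hpo, e4]
  have e6 : J(-1 | p) = 1 := by
    rw [jacobiSym.at_neg_one hpo]
    exact ZMod.χ₄_nat_one_mod_four hp4
  have e7 : (-(d : ℤ)) = (-1) * (d : ℤ) := by ring
  rw [e7, jacobiSym.mul_left, e6, e5]
  norm_num

/-- The three squares theorem for `N ≡ 3 mod 8`. -/
theorem three (h : UniStmt) : ThreeStmt := by
  intro N hN hN8
  obtain ⟨m, hm⟩ : ∃ m : ℕ, N = 8 * (m : ℤ) + 3 := by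
    refine ⟨(N / 8).toNat, ?_⟩
    have : 0 ≤ N / 8 := by omega
    rw [Int.toNat_of_nonneg this]
    omega
  obtain ⟨j, p, hp, hpj, hp4⟩ := exists_prime m
  have hsq := isSquare_neg m j p hp hpj hp4
  have hpos : (0 : ℤ) < p := by exact_mod_cast hp.pos
  obtain ⟨y, hy⟩ := hsq
  set d : ℤ := 8 * (j : ℤ) + 1 with hd
  have hdN : d * N = 2 * p + 1 := by
    rw [hd, hm]
    have : ((2 * p + 1 : ℕ) : ℤ) = (((8 * j + 1) * (8 * m + 3) : ℕ) : ℤ) := by rw [hpj]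
    push_cast at this
    linarith
  have : NeZero p := ⟨hp.ne_zero⟩
  -- a square root as an integer
  obtain ⟨x0, hx0⟩ : ∃ x0 : ℤ, (p : ℤ) ∣ x0 ^ 2 + d := by
    refine ⟨(y.val : ℤ), ?_⟩
    rw [← ZMod.intCast_zmod_eq_zero_iff_dvd]
    have hyv : ((y.val : ℕ) : ZMod p) = y := ZMod.natCast_zmod_val y
    push_cast
    rw [hyv]
    have h1 : ((d : ℤ) : ZMod p) = - (y * y) := by
      rw [← hy, hd]
      push_cast
      ring
    rw [h1]
    ring
  have hpo : (p : ℤ) % 2 = 1 := by omega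
  have hdo : d % 2 = 1 := by omega
  obtain ⟨x, hx, hxo⟩ : ∃ x : ℤ, (p : ℤ) ∣ x ^ 2 + d ∧ x % 2 = 1 := by
    rcases Int.emod_two_eq_zero_or_one x0 with h0 | h0
    · refine ⟨x0 + p, ?_, by omega⟩
      have : (x0 + p) ^ 2 + d = (x0 ^ 2 + d) + p * (2 * x0 + p) := by ring
      rw [this]
      exact dvd_add hx0 (dvd_mul_right _ _)
    · exact ⟨x0, hx0, h0⟩
  have h2 : (2 : ℤ) ∣ x ^ 2 + d := by
    obtain ⟨k, hk⟩ : ∃ k, x = 2 * k + 1 := ⟨x / 2, by omega⟩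
    obtain ⟨l, hl⟩ : ∃ l, d = 2 * l + 1 := ⟨d / 2, by omega⟩
    refine ⟨2 * k ^ 2 + 2 * k + l + 1, ?_⟩
    rw [hk, hl]
    ring
  have hcop : IsCoprime (2 : ℤ) (p : ℤ) := by
    refine ⟨-((p : ℤ) / 2), 1, ?_⟩
    have := Int.emod_add_mul_ediv (p : ℤ) 2
    rw [hpo] at this
    linarith
  obtain ⟨a, ha⟩ := hcop.mul_dvd h2 hx
  have hdpos : 0 < d := by omega
  have hapos : 0 < a := by
    by_contra hcon
    have h3 : a ≤ 0 := not_lt.mp hcon
    have h4 : 2 * (p : ℤ) * a ≤ 0 := by nlinarith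
    have h5 : 0 < x ^ 2 + d := by positivity
    linarith
  have had : a * (2 * (p : ℤ)) - x ^ 2 = d := by
    have : a * (2 * (p : ℤ)) = 2 * (p : ℤ) * a := by ring
    rw [this, ← ha]
    ring
  refine h a x 1 (2 * (p : ℤ)) 0 N hapos (by rw [had]; exact hdpos) ?_
  have : a * (2 * (p : ℤ) * N - 0 ^ 2) - x * (x * N - 1 * 0) + 1 * (x * 0 - 1 * (2 * (p : ℤ)))
      = (a * (2 * (p : ℤ)) - x ^ 2) * N - 2 * p := by ring
  rw [this, had, hdN]
  ring

end Pool.Agent.Lib.MP_dc5ea1_nt.Three
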