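import Pool.Agent.Lib.MP_dc5ea1_nt.Spec

/-!
MP_dc5ea1_nt, module Uni: unimodular ternary forms represent sums of three squares.
Hermite reduction, by induction on the first coefficient.
-/

set_option autoImplicit false

namespace Pool.Agent.Lib.MP_dc5ea1_nt.Uni

theorem round (a m : ℤ) (ha : 0 < a) : ∃ k : ℤ, 2 * |m + k * a| ≤ a := by
  have h1 := Int.emod_nonneg m ha.ne'
  have h2 := Int.emod_lt_of_pos m ha
  have h3 := Int.emod_add_mul_ediv m a
  by_cases h : 2 * (m % a) ≤ a
  · refine ⟨-(m / a), ?_⟩
    have e : m + -(m / a) * a = m % a := by linarith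
    rw [e, abs_of_nonneg h1]
    exact h
  · refine ⟨-(m / a) - 1, ?_⟩
    have e : m + (-(m / a) - 1) * a = m % a - a := by linarith
    rw [e, abs_of_nonpos (by linarith)]
    linarith

/-- Small primitive values of binary forms. -/
theorem bin_min (n : ℕ) : ∀ A B C : ℤ, A ≤ n → 0 < A → 0 < A * C - B ^ 2 →
    ∃ y z p q : ℤ, p * y + q * z = 1 ∧ 0 < A * y ^ 2 + 2 * B * y * z + C * z ^ 2 ∧
      3 * (A * y ^ 2 + 2 * B * y * z + C * z ^ 2) ^ 2 ≤ 4 * (A * C - B ^ 2) := by
  induction n with
  | zero =>
    intro A B C h1 h2 _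
    exfalso
    push_cast at h1
    linarith
  | succ n ih =>
    intro A B C h1 h2 h3
    obtain ⟨k, hk⟩ := round A B h2
    have hk2 : 4 * (B + k * A) ^ 2 ≤ A ^ 2 := by
      have := abs_nonneg (B + k * A)
      have e : (B + k * A) ^ 2 = |B + k * A| ^ 2 := (sq_abs _).symm
      rw [e]
      nlinarith
    have hdet : A * (C + 2 * k * B + k ^ 2 * A) - (B + k * A) ^ 2 = A * C - B ^ 2 := by ring
    by_cases hc : A ≤ C + 2 * k * B + k ^ 2 * A
    · refine ⟨1, 0, 1, 0, by norm_num, by simpa using h2, ?_⟩
      have h4 : A * A ≤ A * (C + 2 * k * B + k ^ 2 * A) := mul_le_mul_of_nonneg_left hc h2.le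
      have e : A * 1 ^ 2 + 2 * B * 1 * 0 + C * 0 ^ 2 = A := by ring
      rw [e]
      nlinarith
    · rw [not_le] at hc
      have hpos : 0 < C + 2 * k * B + k ^ 2 * A := by
        have h5 : 0 < A * (C + 2 * k * B + k ^ 2 * A) := by
          have := sq_nonneg (B + k * A)
          linarith
        exact (mul_pos_iff_of_pos_left h2).1 h5
      obtain ⟨y, z, p, q, e1, e2, e3⟩ := ih (C + 2 * k * B + k ^ 2 * A) (B + k * A) A
        (by push_cast at h1; linarith) hpos (by linarith)
      refine ⟨z + k * y, y, q, p - k * q, by linear_combination e1, ?_, ?_⟩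
      · have e4 : A * (z + k * y) ^ 2 + 2 * B * (z + k * y) * y + C * y ^ 2 =
            (C + 2 * k * B + k ^ 2 * A) * y ^ 2 + 2 * (B + k * A) * y * z + A * z ^ 2 := by ring
        rw [e4]
        exact e2
      · have e4 : A * (z + k * y) ^ 2 + 2 * B * (z + k * y) * y + C * y ^ 2 =
            (C + 2 * k * B + k ^ 2 * A) * y ^ 2 + 2 * (B + k * A) * y * z + A * z ^ 2 := by ring
        rw [e4]
        refine e3.trans (le_of_eq ?_)
        linear_combination 4 * hdet

/-- Binary forms of determinant one represent sums of two squares. -/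
theorem bin_one (n : ℕ) : ∀ A B C : ℤ, A ≤ n → 0 < A → A * C - B ^ 2 = 1 → ∀ y z : ℤ,
    ∃ s t : ℤ, s ^ 2 + t ^ 2 = A * y ^ 2 + 2 * B * y * z + C * z ^ 2 := by
  induction n with
  | zero =>
    intro A B C h1 h2 _
    exfalso
    push_cast at h1
    linarith
  | succ n ih =>
    intro A B C h1 h2 h3 y z
    obtain ⟨k, hk⟩ := round A B h2
    have hk2 : 4 * (B + k * A) ^ 2 ≤ A ^ 2 := by
      have := abs_nonneg (B + k * A)
      have e : (B + k * A) ^ 2 = |B + k * A| ^ 2 := (sq_abs _).symm
      rw [e]
      nlinarith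
    have hdet : A * (C + 2 * k * B + k ^ 2 * A) - (B + k * A) ^ 2 = 1 := by linear_combination h3
    by_cases hc : A ≤ C + 2 * k * B + k ^ 2 * A
    · have h4 : A * A ≤ A * (C + 2 * k * B + k ^ 2 * A) := mul_le_mul_of_nonneg_left hc h2.le
      have hA : A = 1 := by
        by_contra hne
        have : 2 ≤ A := by omega
        nlinarith
      have hB : B + k * A = 0 := by
        rw [hA] at hk
        have h5 : |B + k * 1| = 0 := by
          have := abs_nonneg (B + k * 1)
          omega
        rw [hA]
        exact abs_eq_zero.1 h5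
      have hC : C + 2 * k * B + k ^ 2 * A = 1 := by
        rw [hB] at hdet
        rw [hA] at hdet
        rw [hA]
        linarith
      refine ⟨y - k * z, z, ?_⟩
      have e : A * y ^ 2 + 2 * B * y * z + C * z ^ 2 = A * (y - k * z) ^ 2 +
          2 * (B + k * A) * (y - k * z) * z + (C + 2 * k * B + k ^ 2 * A) * z ^ 2 := by ring
      rw [e, hB, hC, hA]
      ring
    · rw [not_le] at hc
      have hpos : 0 < C + 2 * k * B + k ^ 2 * A := by
        have h5 : 0 < A * (C + 2 * k * B + k ^ 2 * A) := by
          have := sq_nonneg (B + k * A)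
          linarith
        exact (mul_pos_iff_of_pos_left h2).1 h5
      obtain ⟨s, t, hst⟩ := ih (C + 2 * k * B + k ^ 2 * A) (B + k * A) A
        (by push_cast at h1; linarith) hpos (by linarith) z (y - k * z)
      refine ⟨s, t, ?_⟩
      rw [hst]
      ring

theorem main (n : ℕ) : ∀ a b c d e f : ℤ, a ≤ n → 0 < a → 0 < a * d - b ^ 2 →
    a * (d * f - e ^ 2) - b * (b * f - c * e) + c * (b * e - c * d) = 1 → ∀ x y z : ℤ,
    ∃ s t u : ℤ, s ^ 2 + t ^ 2 + u ^ 2 =
      a * x ^ 2 + 2 * b * x * y + 2 * c * x * z + d * y ^ 2 + 2 * e * y * z + f * z ^ 2 := by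
  induction n with
  | zero =>
    intro a b c d e f h1 h2
    exfalso
    push_cast at h1
    linarith
  | succ n ih =>
    intro a b c d e f h1 h2 h3 h4 X Y Z
    have hdet : (a * d - b ^ 2) * (a * f - c ^ 2) - (a * e - b * c) ^ 2 = a := by
      linear_combination a * h4
    by_cases ha : a = 1
    · subst ha
      obtain ⟨s, t, hst⟩ := bin_one (1 * d - b ^ 2).toNat (1 * d - b ^ 2) (1 * e - b * c)
        (1 * f - c ^ 2) (Int.self_le_toNat _) h3 hdet Y Z
      refine ⟨X + b * Y + c * Z, s, t, ?_⟩
      linear_combination hst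
    · have ha2 : 2 ≤ a := by omega
      obtain ⟨y, z, p, q, e1, e2, e3⟩ := bin_min (a * d - b ^ 2).toNat (a * d - b ^ 2)
        (a * e - b * c) (a * f - c ^ 2) (Int.self_le_toNat _) h3 (by rw [hdet]; exact h2)
      rw [hdet] at e3
      set v : ℤ := (a * d - b ^ 2) * y ^ 2 + 2 * (a * e - b * c) * y * z + (a * f - c ^ 2) * z ^ 2
        with hv
      obtain ⟨x, hx⟩ := round a (b * y + c * z) h2
      have hx2 : 4 * (b * y + c * z + x * a) ^ 2 ≤ a ^ 2 := by
        have := abs_nonneg (b * y + c * z + x * a)
        have e : (b * y + c * z + x * a) ^ 2 = |b * y + c * z + x * a| ^ 2 := (sq_abs _).symm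
        rw [e]
        nlinarith
      set a' : ℤ := a * x ^ 2 + 2 * b * x * y + 2 * c * x * z + d * y ^ 2 + 2 * e * y * z +
        f * z ^ 2 with ha'
      have haa : a * a' = (b * y + c * z + x * a) ^ 2 + v := by
        rw [ha', hv]
        ring
      have hpos : 0 < a' := by
        have h5 : 0 < a * a' := by
          have := sq_nonneg (b * y + c * z + x * a)
          linarith
        exact (mul_pos_iff_of_pos_left h2).1 h5
      have hv4 : 4 * v < 3 * a ^ 2 := by
        by_contra hcon
        rw [not_lt] at hcon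
        have h6 : (3 * a ^ 2) ^ 2 ≤ (4 * v) ^ 2 := pow_le_pow_left₀ (by positivity) hcon 2
        have h7 : a ^ 4 = a * a ^ 3 := by ring
        have h8 : 8 ≤ a ^ 3 := by
          have := pow_le_pow_left₀ (by norm_num : (0 : ℤ) ≤ 2) ha2 3
          norm_num at this
          exact this
        nlinarith
      have hlt : a' < a := by
        have h9 : a * a' < a * a := by nlinarith
        exact lt_of_mul_lt_mul_left h9 h2.le
      obtain ⟨s, t, u, hstu⟩ := ih a' (a * x + b * y + c * z)
        (x * (-(b * q) + c * p) + y * (-(d * q) + e * p) + z * (-(e * q) + f * p))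
        a (-(b * q) + c * p) (d * q ^ 2 - 2 * e * p * q + f * p ^ 2)
        (by push_cast at h1; linarith) hpos
        (by
          have : a' * a - (a * x + b * y + c * z) ^ 2 = v := by
            linear_combination haa
          rw [this]
          exact e2)
        (by
          have key : a' * (a * (d * q ^ 2 - 2 * e * p * q + f * p ^ 2) - (-(b * q) + c * p) ^ 2) -
              (a * x + b * y + c * z) * ((a * x + b * y + c * z) *
                (d * q ^ 2 - 2 * e * p * q + f * p ^ 2) -
                (x * (-(b * q) + c * p) + y * (-(d * q) + e * p) + z * (-(e * q) + f * p)) *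
                (-(b * q) + c * p)) +
              (x * (-(b * q) + c * p) + y * (-(d * q) + e * p) + z * (-(e * q) + f * p)) *
              ((a * x + b * y + c * z) * (-(b * q) + c * p) -
                (x * (-(b * q) + c * p) + y * (-(d * q) + e * p) + z * (-(e * q) + f * p)) * a) =
              (a * (d * f - e ^ 2) - b * (b * f - c * e) + c * (b * e - c * d)) *
                (p * y + q * z) ^ 2 := by
            rw [ha']
            ring
          rw [key, h4, e1]
          norm_num)
        (p * Y + q * Z) (X - (p * Y + q * Z) * x) (y * Z - z * Y)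
      refine ⟨s, t, u, ?_⟩
      rw [hstu]
      have eY : Y = (p * Y + q * Z) * y - (y * Z - z * Y) * q := by linear_combination (-Y) * e1
      have eZ : Z = (p * Y + q * Z) * z + (y * Z - z * Y) * p := by linear_combination (-Z) * e1
      set α := p * Y + q * Z with hα
      set γ := y * Z - z * Y with hγ
      rw [ha']
      rw [eY, eZ]
      ring

theorem uni : UniStmt := by
  intro a b c d e f h1 h2 h3
  obtain ⟨s, t, u, h⟩ := main a.toNat a b c d e f (Int.self_le_toNat _) h1 h2 h3 0 0 1
  exact ⟨s, t, u, by rw [h]; ring⟩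

end Pool.Agent.Lib.MP_dc5ea1_nt.Uni
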